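import Mathlib

set_option autoImplicit false

open Set Filter Topology Metric

namespace Pool.Agent.Results.MP_12cf7c_an.WholeClass

/-- The torus R^n / Z^n. -/
abbrev Torus (n : ℕ) : Type := UnitAddTorus (Fin n)

/-- Momenta (and the universal cover of the torus). -/
abbrev Vec (n : ℕ) : Type := EuclideanSpace ℝ (Fin n)

/-- The covering map from R^n onto the torus. -/
def proj {n : ℕ} (x : Vec n) : Torus n := fun i => ((x i : ℝ) : UnitAddCircle)

/-- u is a global (continuous) viscosity subsolution of H(x,Du(x)) = c on the torus. -/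
def IsSubsolution {n : ℕ} (H : Torus n → Vec n → ℝ) (c : ℝ) (u : Torus n → ℝ) : Prop :=
  Continuous u ∧ ∀ (x : Vec n) (φ : Vec n → ℝ), ContDiffAt ℝ 1 φ x →
    IsLocalMax (fun y => u (proj y) - φ y) x → H (proj x) (gradient φ x) ≤ c

/-- u is a global (continuous) viscosity supersolution of H(x,Du(x)) = c on the torus. -/
def IsSupersolution {n : ℕ} (H : Torus n → Vec n → ℝ) (c : ℝ) (u : Torus n → ℝ) : Prop :=
  Continuous u ∧ ∀ (x : Vec n) (φ : Vec n → ℝ), ContDiffAt ℝ 1 φ x →
    IsLocalMin (fun y => u (proj y) - φ y) x → c ≤ H (proj x) (gradient φ x)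

/-- viscosity solution on the whole torus -/
def IsSolution {n : ℕ} (H : Torus n → Vec n → ℝ) (c : ℝ) (u : Torus n → ℝ) : Prop :=
  IsSubsolution H c u ∧ IsSupersolution H c u

/-- superlinearity: H(x,p)/|p| tends to infinity as |p| tends to infinity, uniformly in x -/
def Superlinear {n : ℕ} (H : Torus n → Vec n → ℝ) : Prop :=
  ∀ A : ℝ, ∃ R : ℝ, ∀ (x : Torus n) (p : Vec n), R ≤ ‖p‖ → A * ‖p‖ ≤ H x p

/-- the levels admitting a global subsolution -/
def Levels {n : ℕ} (H : Torus n → Vec n → ℝ) : Set ℝ := {c | ∃ u, IsSubsolution H c u}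

/-- the critical value c₀ -/
noncomputable def critical {n : ℕ} (H : Torus n → Vec n → ℝ) : ℝ := sInf (Levels H)

/-- the values u y - u x, over all global subsolutions u at the critical level -/
def Increments {n : ℕ} (H : Torus n → Vec n → ℝ) (x y : Torus n) : Set ℝ :=
  {r | ∃ u, IsSubsolution H (critical H) u ∧ r = u y - u x}

/-- the function S_x -/
noncomputable def S {n : ℕ} (H : Torus n → Vec n → ℝ) (x y : Torus n) : ℝ :=
  sSup (Increments H x y)

/-! ### The distance to the integers -/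

theorem norm_of_close (t : ℝ) (k : ℤ) (h : |t - k| ≤ 1 / 2) : ‖(t : UnitAddCircle)‖ = |t - k| := by
  have h1 : ((t : ℝ) : UnitAddCircle) = ((t - k : ℝ) : UnitAddCircle) := by
    rw [AddCircle.coe_sub]
    have : ((k : ℝ) : UnitAddCircle) = 0 := by
      rw [AddCircle.coe_eq_zero_iff]; exact ⟨k, by simp⟩
    rw [this, sub_zero]
  rw [h1, AddCircle.norm_coe_eq_abs_iff (p := (1 : ℝ)) one_ne_zero]
  simpa using h

/-- local isometry of the distance to the integers -/
theorem norm_local_isometry (t0 : ℝ) :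
    ∀ᶠ t : ℝ in 𝓝 t0, |‖(t : UnitAddCircle)‖ - ‖(t0 : UnitAddCircle)‖| = |t - t0| := by
  set k : ℤ := round t0 with hk
  have hr : |t0 - k| ≤ 1 / 2 := abs_sub_round t0
  have h0 : ‖(t0 : UnitAddCircle)‖ = |t0 - k| := norm_of_close t0 k hr
  rcases lt_or_eq_of_le hr with h | h
  · -- interior case
    have hev : ∀ᶠ t : ℝ in 𝓝 t0, |t - k| < 1 / 2 := by
      have hc : Continuous (fun t : ℝ => |t - k|) := by fun_prop
      exact hc.continuousAt.eventually_lt continuousAt_const h
    rcases lt_trichotomy (t0 - k) 0 with h2 | h2 | h2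
    · have hev2 : ∀ᶠ t : ℝ in 𝓝 t0, t - k < 0 := by
        have hc : Continuous (fun t : ℝ => t - k) := by fun_prop
        exact hc.continuousAt.eventually_lt continuousAt_const h2
      filter_upwards [hev, hev2] with t ht ht2
      rw [norm_of_close t k ht.le, h0, abs_of_neg ht2, abs_of_neg h2, ← abs_neg]
      congr 1; ring
    · filter_upwards [hev] with t ht
      have h3 : t0 = k := by linarith
      rw [norm_of_close t k ht.le, h0, h2, abs_zero, sub_zero, abs_abs, ← h3]
    · have hev2 : ∀ᶠ t : ℝ in 𝓝 t0, 0 < t - k := by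
        have hc : Continuous (fun t : ℝ => t - k) := by fun_prop
        exact continuousAt_const.eventually_lt hc.continuousAt h2
      filter_upwards [hev, hev2] with t ht ht2
      rw [norm_of_close t k ht.le, h0, abs_of_pos ht2, abs_of_pos h2]
      congr 1; ring
  · -- half-integer case
    obtain ⟨m, hm⟩ : ∃ m : ℤ, t0 = m + 1 / 2 := by
      rcases abs_eq (by norm_num : (0 : ℝ) ≤ 1 / 2) |>.1 h with h3 | h3
      · exact ⟨k, by linarith⟩
      · exact ⟨k - 1, by push_cast; linarith⟩
    have hev : ∀ᶠ t : ℝ in 𝓝 t0, |t - t0| < 1 / 2 := by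
      have hc : Continuous (fun t : ℝ => |t - t0|) := by fun_prop
      exact hc.continuousAt.eventually_lt continuousAt_const (by simp)
    filter_upwards [hev] with t ht
    rw [abs_lt] at ht
    rw [h0, h]
    rcases le_total t t0 with h4 | h4
    · have h5 : |t - m| = t - m := abs_of_nonneg (by linarith)
      rw [norm_of_close t m (by rw [h5]; linarith), h5, abs_of_nonpos (by linarith),
        abs_of_nonpos (by linarith)]
      linarith
    · have h5 : |t - (m + 1 : ℤ)| = m + 1 - t := by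
        rw [abs_of_nonpos (by push_cast; linarith)]; push_cast; ring
      rw [norm_of_close t (m + 1) (by rw [h5]; linarith), h5, abs_of_nonpos (by linarith),
        abs_of_nonneg (by linarith)]
      linarith

/-- away from half-integers, the distance to the integers is locally affine with slope ±1 -/
theorem norm_local_affine (t0 : ℝ) (h1 : ∀ k : ℤ, t0 ≠ k / 2) :
    ∃ σ : ℝ, σ ^ 2 = 1 ∧
      ∀ᶠ t : ℝ in 𝓝 t0, ‖(t : UnitAddCircle)‖ - ‖(t0 : UnitAddCircle)‖ = σ * (t - t0) := by
  set k : ℤ := round t0 with hk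
  have hr : |t0 - k| ≤ 1 / 2 := abs_sub_round t0
  have h0 : ‖(t0 : UnitAddCircle)‖ = |t0 - k| := norm_of_close t0 k hr
  have hlt : |t0 - k| < 1 / 2 := by
    refine lt_of_le_of_ne hr ?_
    intro h
    rcases abs_eq (by norm_num : (0 : ℝ) ≤ 1 / 2) |>.1 h with h3 | h3
    · exact h1 (2 * k + 1) (by push_cast; linarith)
    · exact h1 (2 * k - 1) (by push_cast; linarith)
  have hne : t0 - k ≠ 0 := by
    intro h
    exact h1 (2 * k) (by push_cast; linarith)
  have hev : ∀ᶠ t : ℝ in 𝓝 t0, |t - k| < 1 / 2 := by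
    have hc : Continuous (fun t : ℝ => |t - k|) := by fun_prop
    exact hc.continuousAt.eventually_lt continuousAt_const hlt
  rcases lt_or_gt_of_ne hne with h2 | h2
  · refine ⟨-1, by norm_num, ?_⟩
    have hev2 : ∀ᶠ t : ℝ in 𝓝 t0, t - k < 0 := by
      have hc : Continuous (fun t : ℝ => t - k) := by fun_prop
      exact hc.continuousAt.eventually_lt continuousAt_const h2
    filter_upwards [hev, hev2] with t ht ht2
    rw [norm_of_close t k ht.le, h0, abs_of_neg ht2, abs_of_neg h2]; ring
  · refine ⟨1, by norm_num, ?_⟩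
    have hev2 : ∀ᶠ t : ℝ in 𝓝 t0, 0 < t - k := by
      have hc : Continuous (fun t : ℝ => t - k) := by fun_prop
      exact continuousAt_const.eventually_lt hc.continuousAt h2
    filter_upwards [hev, hev2] with t ht ht2
    rw [norm_of_close t k ht.le, h0, abs_of_pos ht2, abs_of_pos h2]; ring

/-! ### The class of Hamiltonians -/

/-- The class of Hamiltonians of the theorem: `H` is continuous and superlinear, and for the
coordinate direction `i`, the slope `a > 0` and the level `c`
* `H(x, 0) ≥ c` for all `x`,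
* `H(x, ± a e_i) ≤ c` for all `x`,
* `H(x, s e_i) ≤ c` for all `|s| ≤ a` if `x_i` is `0` or `1/2` (mod 1),
* for every `x` there is `|s| ≤ a` with `H(x, s e_i) < c`. -/
structure InClass {n : ℕ} (i : Fin n) (a c : ℝ) (H : Torus n → Vec n → ℝ) : Prop where
  cont : Continuous (fun q : Torus n × Vec n => H q.1 q.2)
  superlin : Superlinear H
  a_pos : 0 < a
  zero : ∀ x, c ≤ H x 0
  slope : ∀ x, H x (EuclideanSpace.single i a) ≤ c ∧ H x (EuclideanSpace.single i (-a)) ≤ c
  walls : ∀ x : Torus n, (x i = 0 ∨ x i = ((1 / 2 : ℝ) : UnitAddCircle)) → ∀ s : ℝ, |s| ≤ a →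
    H x (EuclideanSpace.single i s) ≤ c
  strict : ∀ x, ∃ s : ℝ, |s| ≤ a ∧ H x (EuclideanSpace.single i s) < c

theorem half_int (k : ℤ) : ((k / 2 : ℝ) : UnitAddCircle) = 0 ∨
    ((k / 2 : ℝ) : UnitAddCircle) = ((1 / 2 : ℝ) : UnitAddCircle) := by
  rcases Int.even_or_odd' k with ⟨m, hm | hm⟩
  · left
    rw [AddCircle.coe_eq_zero_iff]
    exact ⟨m, by rw [hm]; push_cast; simp⟩
  · right
    have h : ((k / 2 : ℝ)) = (m : ℝ) + 1 / 2 := by rw [hm]; push_cast; ring
    rw [h, AddCircle.coe_add]
    have h2 : ((m : ℝ) : UnitAddCircle) = 0 := by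
      rw [AddCircle.coe_eq_zero_iff]; exact ⟨m, by simp⟩
    rw [h2, zero_add]

theorem proj_continuous {n : ℕ} : Continuous (proj (n := n)) := by
  unfold proj
  apply continuous_pi
  intro i
  exact (AddCircle.continuous_mk' 1).comp (by fun_prop)

theorem proj_surjective {n : ℕ} (z : Torus n) : ∃ x : Vec n, proj x = z := by
  have h : ∀ i, ∃ t : ℝ, (t : UnitAddCircle) = z i := fun i => by
    obtain ⟨t, ht⟩ := QuotientAddGroup.mk_surjective (z i)
    exact ⟨t, ht⟩
  choose t ht using h
  exact ⟨WithLp.toLp 2 t, funext fun i => by simp [proj, ht]⟩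

/-! ### Calculus lemmas -/

theorem hasDerivAt_line {n : ℕ} {φ : Vec n → ℝ} {x : Vec n} (hφ : ContDiffAt ℝ 1 φ x) (v : Vec n) :
    HasDerivAt (fun t : ℝ => φ (x + t • v)) (inner ℝ (gradient φ x) v) 0 := by
  have h1 : HasFDerivAt φ (fderiv ℝ φ x) x :=
    (hφ.differentiableAt (by norm_num)).hasFDerivAt
  have h2 : HasDerivAt (fun t : ℝ => x + t • v) v 0 := by
    have := ((hasDerivAt_id (0 : ℝ)).smul_const v).const_add x
    simpa using this
  have h3 : HasFDerivAt φ (fderiv ℝ φ x) (x + (0 : ℝ) • v) := by simpa using h1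
  have h4 := h3.comp_hasDerivAt (0 : ℝ) h2
  have h5 : fderiv ℝ φ x v = inner ℝ (gradient φ x) v := by
    rw [← toDual_gradient]; simp
  rw [h5] at h4
  exact h4

theorem deriv_ge_of_right {f : ℝ → ℝ} {q c : ℝ} (hf : HasDerivAt f q 0)
    (h : ∀ᶠ t : ℝ in 𝓝[>] 0, c * t ≤ f t - f 0) : c ≤ q := by
  have h1 := hf.tendsto_slope_zero_right
  apply ge_of_tendsto h1
  filter_upwards [h, self_mem_nhdsWithin] with t ht hpos
  have hpos' : 0 < t := hpos
  rw [zero_add, smul_eq_mul, le_inv_mul_iff₀ hpos']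
  linarith

theorem deriv_le_of_left {f : ℝ → ℝ} {q c : ℝ} (hf : HasDerivAt f q 0)
    (h : ∀ᶠ t : ℝ in 𝓝[<] 0, c * t ≤ f t - f 0) : q ≤ c := by
  have h1 := hf.tendsto_slope_zero_left
  apply le_of_tendsto h1
  filter_upwards [h, self_mem_nhdsWithin] with t ht hneg
  have hneg' : t < 0 := hneg
  rw [zero_add, smul_eq_mul, inv_mul_eq_div, div_le_iff_of_neg hneg']
  linarith

/-! ### Two subsolutions -/

variable {n : ℕ} {i : Fin n} {a c : ℝ} {H : Torus n → Vec n → ℝ}

/-- For s = ±a, the function z ↦ s * dist(z_i, 0) is a subsolution at level c. -/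
theorem dist_subsolution (hH : InClass i a c H) (s : ℝ) (hs : s = a ∨ s = -a) :
    IsSubsolution H c (fun z : Torus n => s * ‖z i‖) := by
  refine ⟨continuous_const.mul (continuous_norm.comp (continuous_apply i)), ?_⟩
  intro x φ hφ hmax
  set p := gradient φ x with hp
  -- along lines
  have hline : ∀ v : Vec n, ∀ᶠ t : ℝ in 𝓝 0,
      s * (‖((x i + t * v i : ℝ) : UnitAddCircle)‖ - ‖((x i : ℝ) : UnitAddCircle)‖) ≤
        φ (x + t • v) - φ x := by
    intro v
    have hc : Tendsto (fun t : ℝ => x + t • v) (𝓝 0) (𝓝 x) := by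
      have : Continuous (fun t : ℝ => x + t • v) := by fun_prop
      simpa using this.tendsto 0
    filter_upwards [hc.eventually hmax] with t ht
    simp only [proj, PiLp.add_apply, PiLp.smul_apply, smul_eq_mul] at ht
    linarith
  have hzero : ∀ v : Vec n, v i = 0 → inner ℝ p v = 0 := by
    intro v hv
    have h1 := hasDerivAt_line hφ v
    have h2 : ∀ᶠ t : ℝ in 𝓝 0, (0 : ℝ) * t ≤ φ (x + t • v) - φ (x + (0 : ℝ) • v) := by
      filter_upwards [hline v] with t ht
      simpa [hv] using ht
    exact le_antisymm (deriv_le_of_left h1 (h2.filter_mono nhdsWithin_le_nhds))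
      (deriv_ge_of_right h1 (h2.filter_mono nhdsWithin_le_nhds))
  have hpj : ∀ j, j ≠ i → p j = 0 := by
    intro j hj
    have := hzero (EuclideanSpace.single j 1) (by simp [Ne.symm hj])
    simpa [EuclideanSpace.inner_single_right] using this
  have hpe : p = EuclideanSpace.single i (p i) := by
    ext j
    by_cases hj : j = i
    · subst hj; simp
    · rw [hpj j hj]; simp [hj]
  have hder : HasDerivAt (fun t : ℝ => φ (x + t • EuclideanSpace.single i (1 : ℝ))) (p i) 0 := by
    have h1 := hasDerivAt_line hφ (EuclideanSpace.single i (1 : ℝ))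
    have h2 : inner ℝ (gradient φ x) (EuclideanSpace.single i (1 : ℝ)) = p i := by
      rw [EuclideanSpace.inner_single_right]; simp [hp]
    rw [h2] at h1
    exact h1
  have hline1 := hline (EuclideanSpace.single i (1 : ℝ))
  simp only [PiLp.single_apply, if_true, mul_one] at hline1
  have hshift : Tendsto (fun t : ℝ => x i + t) (𝓝 0) (𝓝 (x i)) := by
    have : Continuous (fun t : ℝ => x i + t) := by fun_prop
    simpa using this.tendsto 0
  have hs1 : |s| = a := by
    rcases hs with h | h <;> rw [h]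
    · exact abs_of_pos hH.a_pos
    · rw [abs_neg]; exact abs_of_pos hH.a_pos
  rw [hpe]
  by_cases hx : ∀ k : ℤ, x i ≠ k / 2
  · obtain ⟨σ, hσ, hloc⟩ := norm_local_affine (x i) hx
    have h5 : ∀ᶠ t : ℝ in 𝓝 0, (s * σ) * t ≤
        φ (x + t • EuclideanSpace.single i (1 : ℝ)) -
          φ (x + (0 : ℝ) • EuclideanSpace.single i (1 : ℝ)) := by
      filter_upwards [hline1, hshift.eventually hloc] with t ht1 ht2
      rw [zero_smul, add_zero]
      rw [ht2] at ht1
      calc s * σ * t = s * (σ * (x i + t - x i)) := by ring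
        _ ≤ _ := ht1
    have h6 : p i = s * σ := le_antisymm
      (deriv_le_of_left hder (h5.filter_mono nhdsWithin_le_nhds))
      (deriv_ge_of_right hder (h5.filter_mono nhdsWithin_le_nhds))
    have hσ' : σ = 1 ∨ σ = -1 := by rw [← mul_self_eq_one_iff, ← pow_two]; exact hσ
    have h7 : p i = a ∨ p i = -a := by
      rw [h6]
      rcases hs with h | h <;> rcases hσ' with h' | h' <;> rw [h, h'] <;> simp
    rcases h7 with h7 | h7 <;> rw [h7]
    · exact (hH.slope _).1
    · exact (hH.slope _).2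
  · push Not at hx
    obtain ⟨k, hk⟩ := hx
    have habs : ∀ᶠ t : ℝ in 𝓝 0, - (a * |t|) ≤
        φ (x + t • EuclideanSpace.single i (1 : ℝ)) -
          φ (x + (0 : ℝ) • EuclideanSpace.single i (1 : ℝ)) := by
      filter_upwards [hline1, hshift.eventually (norm_local_isometry (x i))] with t ht1 ht2
      rw [zero_smul, add_zero]
      rw [add_sub_cancel_left] at ht2
      have h3 := neg_abs_le (s * (‖((x i + t : ℝ) : UnitAddCircle)‖ -
        ‖((x i : ℝ) : UnitAddCircle)‖))
      rw [abs_mul, hs1, ht2] at h3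
      linarith
    have hge : -a ≤ p i := by
      apply deriv_ge_of_right hder
      filter_upwards [habs.filter_mono nhdsWithin_le_nhds, self_mem_nhdsWithin] with t ht hpos
      have hpos' : 0 < t := hpos
      rw [abs_of_pos hpos'] at ht
      linarith
    have hle : p i ≤ a := by
      apply deriv_le_of_left hder
      filter_upwards [habs.filter_mono nhdsWithin_le_nhds, self_mem_nhdsWithin] with t ht hneg
      have hneg' : t < 0 := hneg
      rw [abs_of_neg hneg'] at ht
      linarith
    apply hH.walls (proj x) _ (p i) (abs_le.2 ⟨hge, hle⟩)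
    show ((x i : ℝ) : UnitAddCircle) = 0 ∨ ((x i : ℝ) : UnitAddCircle) = _
    rw [hk]
    exact half_int k

/-! ### The critical value is c -/

theorem level_ge (hH : InClass i a c H) (l : ℝ) (u : Torus n → ℝ)
    (hu : IsSubsolution H l u) : c ≤ l := by
  obtain ⟨z, -, hz⟩ := isCompact_univ.exists_isMaxOn (univ_nonempty (α := Torus n))
    hu.1.continuousOn
  obtain ⟨x, rfl⟩ := proj_surjective z
  have h1 := hu.2 x (fun _ => 0) contDiffAt_const (by
    apply Filter.Eventually.of_forall
    intro y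
    have := hz (mem_univ (proj y))
    simpa using this)
  have h2 : gradient (fun _ : Vec n => (0 : ℝ)) x = 0 := by
    simp [gradient]
  rw [h2] at h1
  exact (hH.zero _).trans h1

theorem levels_nonempty (hH : InClass i a c H) : (Levels H).Nonempty :=
  ⟨c, _, dist_subsolution hH a (Or.inl rfl)⟩

theorem levels_bddBelow (hH : InClass i a c H) : BddBelow (Levels H) :=
  ⟨c, fun l hl => by obtain ⟨u, hu⟩ := hl; exact level_ge hH l u hu⟩

theorem critical_eq (hH : InClass i a c H) : critical H = c := by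
  apply le_antisymm
  · exact csInf_le (levels_bddBelow hH) ⟨_, dist_subsolution hH a (Or.inl rfl)⟩
  · apply le_csInf (levels_nonempty hH)
    intro l hl
    obtain ⟨u, hu⟩ := hl; exact level_ge hH l u hu

/-! ### A priori Lipschitz bound, so that S is a genuine supremum -/

theorem gradient_norm_dist (i : Fin n) (L : ℝ) (hL : 0 < L) (x y : Vec n) (h : y ≠ x) :
    ContDiffAt ℝ 1 (fun y => L * ‖y - x‖) y ∧ ‖gradient (fun y => L * ‖y - x‖) y‖ = L := by
  have : Nonempty (Fin n) := ⟨i⟩
  have hne : y - x ≠ 0 := sub_ne_zero.2 h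
  have h1 : ContDiffAt ℝ 1 (fun y : Vec n => ‖y - x‖) y :=
    (contDiffAt_norm ℝ hne).comp y (contDiffAt_id.sub contDiffAt_const)
  refine ⟨contDiffAt_const.mul h1, ?_⟩
  have h2 : ‖gradient (fun y => L * ‖y - x‖) y‖ = ‖fderiv ℝ (fun y => L * ‖y - x‖) y‖ := by
    rw [← toDual_gradient, LinearIsometryEquiv.norm_map]
  rw [h2]
  have h3 : fderiv ℝ (fun y => L * ‖y - x‖) y = (L : ℝ) • fderiv ℝ (fun y => ‖y - x‖) y := by
    have := fderiv_const_smul (h1.differentiableAt (by norm_num)) (L : ℝ)
    exact this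
  rw [h3, norm_smul]
  have h4 : fderiv ℝ (fun y => ‖y - x‖) y = fderiv ℝ (fun y => ‖y‖) (y - x) := by
    have := fderiv_comp_sub (𝕜 := ℝ) (f := fun y : Vec n => ‖y‖) (x := y) x
    exact this
  rw [h4, norm_fderiv_norm ((contDiffAt_norm ℝ hne (n := 1)).differentiableAt (by norm_num))]
  rw [Real.norm_eq_abs, abs_of_pos hL, mul_one]

theorem exists_slope (hH : InClass i a c H) : ∃ L : ℝ, 0 < L ∧
    ∀ (x : Torus n) (p : Vec n), ‖p‖ = L → c < H x p := by
  obtain ⟨R, hR⟩ := hH.superlin (|c| + 1)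
  refine ⟨max R 1, lt_of_lt_of_le one_pos (le_max_right _ _), fun x p hp => ?_⟩
  have h1 := hR x p (by rw [hp]; exact le_max_left _ _)
  have h2 : 1 ≤ ‖p‖ := by rw [hp]; exact le_max_right _ _
  have h3 : |c| + 1 ≤ (|c| + 1) * ‖p‖ := by
    nlinarith [abs_nonneg c]
  have h4 := le_abs_self c
  linarith

theorem subsolution_lipschitz (i : Fin n) (L : ℝ) (hL0 : 0 < L)
    (hL : ∀ (x : Torus n) (p : Vec n), ‖p‖ = L → c < H x p) (u : Torus n → ℝ)
    (hu : IsSubsolution H c u) (x y : Vec n) : u (proj y) - u (proj x) ≤ L * ‖y - x‖ := by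
  obtain ⟨zM, -, hzM⟩ := isCompact_univ.exists_isMaxOn (univ_nonempty (α := Torus n))
    hu.1.continuousOn
  set M := u zM with hM
  have hMle : ∀ z, u z ≤ M := fun z => hzM (mem_univ z)
  set R := (M - u (proj x)) / L + 1 with hR
  have hRpos : 0 < R := by
    have h1 := hMle (proj x)
    have h2 : 0 ≤ (M - u (proj x)) / L := div_nonneg (by linarith) hL0.le
    rw [hR]; linarith
  set F : Vec n → ℝ := fun y => u (proj y) - L * ‖y - x‖ with hF
  have hFc : Continuous F :=
    (hu.1.comp proj_continuous).sub (continuous_const.mul (continuous_id.sub continuous_const).norm)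
  obtain ⟨y1, hy1, hmax⟩ := (isCompact_closedBall x R).exists_isMaxOn
    ⟨x, mem_closedBall_self hRpos.le⟩ hFc.continuousOn
  have hglob : ∀ y, F y ≤ F y1 := by
    intro y
    by_cases hy : y ∈ closedBall x R
    · exact hmax hy
    · have h1 : R < ‖y - x‖ := by
        rw [mem_closedBall, dist_eq_norm] at hy; linarith
      have h2 : F x ≤ F y1 := hmax (mem_closedBall_self hRpos.le)
      have h3 : F x = u (proj x) := by simp [hF]
      have h4 : F y ≤ M - L * R := by
        have h5 := hMle (proj y)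
        have h6 : L * R ≤ L * ‖y - x‖ := mul_le_mul_of_nonneg_left h1.le hL0.le
        simp only [hF]; linarith
      have h5 : M - L * R = u (proj x) - L := by rw [hR]; field_simp; ring
      linarith
  by_cases hyx : y1 = x
  · have := hglob y
    rw [hyx] at this
    simp only [hF, sub_self, norm_zero, mul_zero, sub_zero] at this
    linarith
  · exfalso
    obtain ⟨hsm, hgr⟩ := gradient_norm_dist i L hL0 x y1 hyx
    have h1 := hu.2 y1 _ hsm (Filter.Eventually.of_forall hglob)
    have h2 := hL (proj y1) _ hgr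
    linarith

theorem increments_bddAbove (hH : InClass i a c H) (x y : Torus n) :
    BddAbove (Increments H x y) := by
  obtain ⟨L, hL0, hL⟩ := exists_slope hH
  obtain ⟨x0, rfl⟩ := proj_surjective x
  obtain ⟨y0, rfl⟩ := proj_surjective y
  refine ⟨L * ‖y0 - x0‖, ?_⟩
  rintro r ⟨u, hu, rfl⟩
  rw [critical_eq hH] at hu
  exact subsolution_lipschitz i L hL0 hL u hu x0 y0

theorem increments_nonempty (hH : InClass i a c H) (x y : Torus n) :
    (Increments H x y).Nonempty := by
  refine ⟨_, fun z => a * ‖z i‖, ?_, rfl⟩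
  rw [critical_eq hH]; exact dist_subsolution hH a (Or.inl rfl)

/-- S_x lies above a | dist(y_i) - dist(x_i) |. -/
theorem S_ge (hH : InClass i a c H) (x y : Torus n) : a * |‖y i‖ - ‖x i‖| ≤ S H x y := by
  have h1 : ∀ s : ℝ, s = a ∨ s = -a → s * ‖y i‖ - s * ‖x i‖ ≤ S H x y := by
    intro s hs
    apply le_csSup (increments_bddAbove hH x y)
    refine ⟨fun z => s * ‖z i‖, ?_, rfl⟩
    rw [critical_eq hH]; exact dist_subsolution hH s hs
  have h2 := h1 a (Or.inl rfl)
  have h3 := h1 (-a) (Or.inr rfl)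
  rcases abs_cases (‖y i‖ - ‖x i‖) with ⟨h4, _⟩ | ⟨h4, _⟩ <;> rw [h4] <;> linarith

theorem S_self (hH : InClass i a c H) (x : Torus n) : S H x x = 0 := by
  unfold S
  have : Increments H x x = {0} := by
    ext r
    constructor
    · rintro ⟨u, _, rfl⟩; simp
    · rintro rfl
      obtain ⟨r, u, hu, hr⟩ := increments_nonempty hH x x
      exact ⟨u, hu, by simp⟩
  rw [this, csSup_singleton]

/-- S_x is not a supersolution at the point x. -/
theorem S_not_supersolution (hH : InClass i a c H) (x : Torus n) :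
    ¬ IsSupersolution H (critical H) (S H x) := by
  intro hS
  obtain ⟨x0, rfl⟩ := proj_surjective x
  rw [critical_eq hH] at hS
  obtain ⟨s, hsa, hs⟩ := hH.strict (proj x0)
  set e : Vec n := EuclideanSpace.single i s with he
  have hgrad : ∀ y, HasGradientAt (fun y : Vec n => inner ℝ e y) e y := by
    intro y
    rw [hasGradientAt_iff_hasFDerivAt]
    exact (InnerProductSpace.toDual ℝ (Vec n) e).hasFDerivAt
  have hsm : ContDiffAt ℝ 1 (fun y : Vec n => inner ℝ e y) x0 :=
    contDiffAt_const.inner ℝ contDiffAt_id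
  have hin : ∀ y : Vec n, inner ℝ e y = s * y i := by
    intro y; simp [he, EuclideanSpace.inner_single_left]
  have hloc : IsLocalMin (fun y => S H (proj x0) (proj y) - inner ℝ e y) x0 := by
    have hc : Tendsto (fun y : Vec n => y i) (𝓝 x0) (𝓝 (x0 i)) := by
      have : Continuous (fun y : Vec n => y i) := by fun_prop
      exact this.tendsto x0
    filter_upwards [hc.eventually (norm_local_isometry (x0 i))] with y hy
    rw [S_self hH, hin, hin]
    have h1 := S_ge hH (proj x0) (proj y)
    have h2 : |‖proj y i‖ - ‖proj x0 i‖| = |y i - x0 i| := hy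
    rw [h2] at h1
    have h3 : s * (y i - x0 i) ≤ a * |y i - x0 i| := by
      calc s * (y i - x0 i) ≤ |s * (y i - x0 i)| := le_abs_self _
        _ = |s| * |y i - x0 i| := abs_mul _ _
        _ ≤ a * |y i - x0 i| := mul_le_mul_of_nonneg_right hsa (abs_nonneg _)
    linarith
  have h1 := hS.2 x0 _ hsm hloc
  rw [(hgrad x0).gradient] at h1
  linarith

/-! ### Examples -/

/-- `H(x, p) = |p|⁴ - 2 a² |p|² + V(x)` -/
noncomputable def quartic {n : ℕ} (a : ℝ) (V : Torus n → ℝ) (x : Torus n) (p : Vec n) : ℝ :=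
  ‖p‖ ^ 4 - 2 * a ^ 2 * ‖p‖ ^ 2 + V x

theorem quartic_inClass {n : ℕ} (i : Fin n) (a : ℝ) (ha : 0 < a) (V : Torus n → ℝ)
    (hV : Continuous V) (hV0 : ∀ x, 0 ≤ V x) (hV1 : ∀ x, V x < a ^ 4)
    (hVw : ∀ x : Torus n, (x i = 0 ∨ x i = ((1 / 2 : ℝ) : UnitAddCircle)) → V x = 0) :
    InClass i a 0 (quartic a V) := by
  have hn : ∀ s : ℝ, ‖(EuclideanSpace.single i s : Vec n)‖ ^ 2 = s ^ 2 := by
    intro s
    rw [EuclideanSpace.norm_single, Real.norm_eq_abs, sq_abs]
  have hval : ∀ (x : Torus n) (s : ℝ), quartic a V x (EuclideanSpace.single i s) =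
      s ^ 2 * (s ^ 2 - 2 * a ^ 2) + V x := by
    intro x s
    have h4 : ‖(EuclideanSpace.single i s : Vec n)‖ ^ 4 = (s ^ 2) ^ 2 := by
      rw [← hn s]; ring
    rw [quartic, h4, hn]; ring
  refine ⟨?_, ?_, ha, ?_, ?_, ?_, ?_⟩
  · unfold quartic
    have h1 : Continuous (fun q : Torus n × Vec n => V q.1) := hV.comp continuous_fst
    fun_prop
  · intro A
    refine ⟨max (2 * a ^ 2 + 1) |A|, ?_⟩
    intro x p hp
    have h2 : 2 * a ^ 2 + 1 ≤ ‖p‖ := (le_max_left _ _).trans hp
    have hA : A ≤ ‖p‖ := (le_abs_self A).trans ((le_max_right _ _).trans hp)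
    have h3 := hV0 x
    have ha2 : 0 < a ^ 2 := by positivity
    unfold quartic
    have h4 : 1 ≤ ‖p‖ := by linarith
    have h5 : A * ‖p‖ ≤ ‖p‖ ^ 2 := by nlinarith
    have h6 : 2 * a ^ 2 + 1 ≤ ‖p‖ ^ 2 := by nlinarith
    nlinarith [mul_nonneg (sq_nonneg ‖p‖) (by linarith : 0 ≤ ‖p‖ ^ 2 - (2 * a ^ 2 + 1))]
  · intro x
    have := hV0 x
    simpa [quartic] using this
  · intro x
    have h1 := hV1 x
    rw [hval, hval]
    constructor <;> nlinarith
  · intro x hx s hs
    rw [hval, hVw x hx]
    have h1 : s ^ 2 ≤ a ^ 2 := by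
      rw [← sq_abs s]
      exact pow_le_pow_left₀ (abs_nonneg s) hs 2
    nlinarith [sq_nonneg s, sq_nonneg a]
  · intro x
    refine ⟨a, by rw [abs_of_pos ha], ?_⟩
    have h1 := hV1 x
    rw [hval]
    nlinarith

/-- **Q1 has a negative answer for a whole class of Hamiltonians.**

1. Let `H` be a continuous superlinear Hamiltonian on the `n`-dimensional torus for which there
are a coordinate direction `i`, a slope `a > 0` and a level `c` such that `H(x,0) ≥ c` and
`H(x, ± a e_i) ≤ c` for all `x`, `H(x, s e_i) ≤ c` for `|s| ≤ a` if `x_i ∈ {0, 1/2}`, and such that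
for every `x` some `|s| ≤ a` has `H(x, s e_i) < c`.  Then `c₀ = c`, the functions `S_x` are well
defined, and `S_x` is not a viscosity solution (it is a subsolution that is not a supersolution at
`x`) for every point `x` of the torus.
2. The class contains `|p|⁴ - 2 a² |p|² + V(x)` for every `a > 0` and every continuous `V` with
`0 ≤ V < a⁴` which vanishes for `x_i ∈ {0, 1/2}`.
3. In particular (`V = 0`), for every `a > 0` and in every dimension `n ≥ 1` the Hamiltonian
`|p|⁴ - 2 a² |p|²`, which does not depend on `x`, is a counterexample. -/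
theorem result :
    (∀ (n : ℕ) (i : Fin n) (a c : ℝ) (H : Torus n → Vec n → ℝ), InClass i a c H →
      (Levels H).Nonempty ∧ BddBelow (Levels H) ∧ critical H = c ∧
      (∀ x y, (Increments H x y).Nonempty ∧ BddAbove (Increments H x y)) ∧
      ∀ x : Torus n, ¬ IsSupersolution H (critical H) (S H x) ∧
        ¬ IsSolution H (critical H) (S H x)) ∧
    (∀ (n : ℕ) (i : Fin n) (a : ℝ) (V : Torus n → ℝ), 0 < a → Continuous V →
      (∀ x, 0 ≤ V x ∧ V x < a ^ 4) →
      (∀ x : Torus n, (x i = 0 ∨ x i = ((1 / 2 : ℝ) : UnitAddCircle)) → V x = 0) →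
      InClass i a 0 (fun x p => ‖p‖ ^ 4 - 2 * a ^ 2 * ‖p‖ ^ 2 + V x)) ∧
    (∀ (n : ℕ) (_ : 1 ≤ n) (a : ℝ), 0 < a → ∃ H : Torus n → Vec n → ℝ,
      (∀ x p, H x p = ‖p‖ ^ 4 - 2 * a ^ 2 * ‖p‖ ^ 2) ∧
      Continuous (fun q : Torus n × Vec n => H q.1 q.2) ∧ Superlinear H ∧
      (Levels H).Nonempty ∧ BddBelow (Levels H) ∧
      (∀ x y, (Increments H x y).Nonempty ∧ BddAbove (Increments H x y)) ∧
      ∀ x : Torus n, ¬ IsSolution H (critical H) (S H x)) := by
  refine ⟨?_, ?_, ?_⟩
  · intro n i a c H hH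
    refine ⟨levels_nonempty hH, levels_bddBelow hH, critical_eq hH,
      fun x y => ⟨increments_nonempty hH x y, increments_bddAbove hH x y⟩, fun x => ?_⟩
    exact ⟨S_not_supersolution hH x, fun h => S_not_supersolution hH x h.2⟩
  · intro n i a V ha hV h1 h2
    exact quartic_inClass i a ha V hV (fun x => (h1 x).1) (fun x => (h1 x).2) h2
  · intro n hn a ha
    have hH : InClass (⟨0, hn⟩ : Fin n) a 0 (quartic a (fun _ => 0)) :=
      quartic_inClass _ a ha _ continuous_const (fun _ => le_rfl) (fun _ => by positivity)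
        (fun _ _ => rfl)
    refine ⟨quartic a (fun _ => 0), ?_, hH.cont, hH.superlin, levels_nonempty hH,
      levels_bddBelow hH, fun x y => ⟨increments_nonempty hH x y, increments_bddAbove hH x y⟩,
      fun x h => S_not_supersolution hH x h.2⟩
    intro x p
    simp [quartic]

end Pool.Agent.Results.MP_12cf7c_an.WholeClass
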