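import Mathlib
import Pool.Agent.Results.MP_12cf7c_an.WholeClass
import Pool.Agent.Y699.HJ.Key

set_option autoImplicit false

open Set Filter Topology Metric

namespace Pool.Agent.Results.MP_12cf7c_an.CounterexamplesDense

open Pool.Agent.Results.MP_12cf7c_an.WholeClass Pool.Agent.Y699.HJ

variable {n : ℕ}

/-! ### General facts about subsolutions -/

theorem gradient_of_isLocalMax {f φ : Vec n → ℝ} {x p : Vec n} (hf : HasGradientAt f p x)
    (hφ : ContDiffAt ℝ 1 φ x) (h : IsLocalMax (fun y => f y - φ y) x) : gradient φ x = p := by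
  have h1 := hasGradientAt_iff_hasFDerivAt.1 hf
  have h2 := hasGradientAt_iff_hasFDerivAt.1 (hφ.differentiableAt (by norm_num)).hasGradientAt
  have h3 := h.hasFDerivAt_eq_zero (h1.sub h2)
  have h4 := (InnerProductSpace.toDual ℝ (Vec n)).injective (sub_eq_zero.1 h3)
  exact h4.symm

theorem touch {H : Torus n → Vec n → ℝ} {l K : ℝ} {u : Torus n → ℝ} (hu : IsSubsolution H l u)
    {y : Vec n} {z : Torus n}
    (hz : ∀ z', u z' - K * gT (z' - proj y) ≤ u z - K * gT (z - proj y)) :
    H z (K • DgT (z - proj y)) ≤ l := by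
  obtain ⟨x, rfl⟩ := proj_surjective z
  have h1 : HasGradientAt (fun x' : Vec n => K * g (x' - y)) (K • Dg (x - y)) x := by
    have h2 := (hasGradientAt_iff_hasFDerivAt.1 (hasGradientAt_g (x - y)))
    have h4 := (h2.comp x ((hasFDerivAt_id x).sub_const y)).const_mul K
    rw [hasGradientAt_iff_hasFDerivAt]
    refine HasFDerivAt.congr_fderiv h4 ?_
    ext v
    simp
  have h2 : ContDiffAt ℝ 1 (fun x' : Vec n => K * g (x' - y)) x := by
    have h3 : ContDiff ℝ 1 (fun x' : Vec n => g (x' - y)) :=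
      contDiff_g.comp (contDiff_id.sub contDiff_const)
    exact (contDiff_const.mul h3).contDiffAt
  have h3 := hu.2 x _ h2 (by
    apply Filter.Eventually.of_forall
    intro x'
    have := hz (proj x')
    rw [← proj_sub, ← proj_sub, gT_proj, gT_proj] at this
    exact this)
  rw [h1.gradient] at h3
  rw [← proj_sub, DgT_proj]
  exact h3

theorem exists_slope' {H : Torus n → Vec n → ℝ} (hs : Superlinear H) (c : ℝ) :
    ∃ L : ℝ, 0 < L ∧ ∀ (x : Torus n) (p : Vec n), ‖p‖ = L → c < H x p := by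
  obtain ⟨R, hR⟩ := hs (|c| + 1)
  refine ⟨max R 1, lt_of_lt_of_le one_pos (le_max_right _ _), fun x p hp => ?_⟩
  have h1 := hR x p (by rw [hp]; exact le_max_left _ _)
  have h2 : 1 ≤ ‖p‖ := by rw [hp]; exact le_max_right _ _
  have h3 : |c| + 1 ≤ (|c| + 1) * ‖p‖ := by
    nlinarith [abs_nonneg c]
  have h4 := le_abs_self c
  linarith

theorem continuous_zero_section {H : Torus n → Vec n → ℝ}
    (hH : Continuous (fun q : Torus n × Vec n => H q.1 q.2)) :
    Continuous (fun z : Torus n => H z 0) := by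
  have h1 : Continuous (fun z : Torus n => ((z, (0 : Vec n)) : Torus n × Vec n)) := by
    fun_prop
  exact hH.comp h1

theorem levels_nonempty' {H : Torus n → Vec n → ℝ}
    (hH : Continuous (fun q : Torus n × Vec n => H q.1 q.2)) : (Levels H).Nonempty := by
  obtain ⟨z, -, hz⟩ := isCompact_univ.exists_isMaxOn (univ_nonempty (α := Torus n))
    (continuous_zero_section hH).continuousOn
  refine ⟨H z 0, fun _ => 0, continuous_const, fun x φ hφ hmax => ?_⟩
  have h1 : HasGradientAt (fun _ : Vec n => (0 : ℝ)) 0 x := hasGradientAt_const x 0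
  rw [gradient_of_isLocalMax h1 hφ hmax]
  exact hz (mem_univ _)

theorem levels_bddBelow' {H : Torus n → Vec n → ℝ}
    (hH : Continuous (fun q : Torus n × Vec n => H q.1 q.2)) : BddBelow (Levels H) := by
  obtain ⟨z0, -, hz0⟩ := isCompact_univ.exists_isMinOn (univ_nonempty (α := Torus n))
    (continuous_zero_section hH).continuousOn
  refine ⟨H z0 0, ?_⟩
  rintro l ⟨u, hu⟩
  obtain ⟨z, -, hz⟩ := isCompact_univ.exists_isMaxOn (univ_nonempty (α := Torus n))
    hu.1.continuousOn
  obtain ⟨x, rfl⟩ := proj_surjective z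
  have h1 := hu.2 x (fun _ => 0) contDiffAt_const (by
    apply Filter.Eventually.of_forall
    intro y
    have := hz (mem_univ (proj y))
    simpa using this)
  have h2 : gradient (fun _ : Vec n => (0 : ℝ)) x = 0 := by
    simp [gradient]
  rw [h2] at h1
  have h3 : H z0 0 ≤ H (proj x) 0 := hz0 (mem_univ _)
  exact h3.trans h1

theorem superlinear_of_close {H K : Torus n → Vec n → ℝ} {e : ℝ} (hH : Superlinear H)
    (h : ∀ z p, |K z p - H z p| ≤ e) : Superlinear K := by
  intro A
  obtain ⟨R, hR⟩ := hH (A + 1)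
  refine ⟨max R e, fun z p hp => ?_⟩
  have h1 := hR z p ((le_max_left _ _).trans hp)
  have h2 : e ≤ ‖p‖ := (le_max_right _ _).trans hp
  have h3 := (abs_le.1 (h z p)).1
  nlinarith

/-! ### The finite maximum plus a small `C¹` function -/

/-- small periodic function with gradient `τ e_i` at `x0` -/
noncomputable def bump (i : Fin n) (x0 : Vec n) (τ : ℝ) (z : Torus n) : ℝ :=
  τ * (sinT (z i - ((x0 i : ℝ) : UnitAddCircle)) / (2 * Real.pi))

theorem bump_proj (i : Fin n) (x0 : Vec n) (τ : ℝ) (x : Vec n) :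
    bump i x0 τ (proj x) = τ * (Real.sin (2 * Real.pi * (x i - x0 i)) / (2 * Real.pi)) := by
  unfold bump proj
  rw [← AddCircle.coe_sub, sinT_coe]

theorem continuous_bump (i : Fin n) (x0 : Vec n) (τ : ℝ) : Continuous (bump i x0 τ) := by
  unfold bump
  exact continuous_const.mul ((continuous_sinT.comp
    ((continuous_apply i).sub continuous_const)).div_const _)

theorem contDiff_bump (i : Fin n) (x0 : Vec n) (τ : ℝ) :
    ContDiff ℝ 1 (fun x : Vec n => bump i x0 τ (proj x)) := by
  simp only [bump_proj]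
  fun_prop

theorem hasGradientAt_bump (i : Fin n) (x0 : Vec n) (τ : ℝ) (x : Vec n) :
    HasGradientAt (fun x : Vec n => bump i x0 τ (proj x))
      ((τ * Real.cos (2 * Real.pi * (x i - x0 i))) • EuclideanSpace.single i (1 : ℝ)) x := by
  simp only [bump_proj]
  have h2 : HasFDerivAt (fun x : Vec n => x i) (EuclideanSpace.proj i : Vec n →L[ℝ] ℝ) x :=
    (EuclideanSpace.proj i : Vec n →L[ℝ] ℝ).hasFDerivAt
  have h3 : HasDerivAt (fun t : ℝ => τ * (Real.sin (2 * Real.pi * (t - x0 i)) / (2 * Real.pi)))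
      (τ * Real.cos (2 * Real.pi * (x i - x0 i))) (x i) := by
    have h4 : HasDerivAt (fun t : ℝ => 2 * Real.pi * (t - x0 i)) (2 * Real.pi) (x i) := by
      simpa using ((hasDerivAt_id (x i)).sub_const (x0 i)).const_mul (2 * Real.pi)
    have h5 := ((h4.sin).div_const (2 * Real.pi)).const_mul τ
    refine h5.congr_deriv ?_
    have := Real.pi_ne_zero
    field_simp
  have h6 := h3.comp_hasFDerivAt x h2
  rw [hasGradientAt_iff_hasFDerivAt]
  refine HasFDerivAt.congr_fderiv h6 ?_
  ext v
  simp [EuclideanSpace.inner_single_left]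

theorem norm_bump_le (i : Fin n) (x0 : Vec n) (τ s : ℝ) (h : |τ| ≤ s) (x : Vec n) :
    ‖(τ * Real.cos (2 * Real.pi * (x i - x0 i))) • (EuclideanSpace.single i (1 : ℝ) : Vec n)‖
      ≤ s := by
  rw [norm_smul, PiLp.norm_single, norm_one, mul_one, Real.norm_eq_abs, abs_mul]
  have h1 := Real.abs_cos_le_one (2 * Real.pi * (x i - x0 i))
  calc |τ| * |Real.cos (2 * Real.pi * (x i - x0 i))| ≤ |τ| * 1 :=
        mul_le_mul_of_nonneg_left h1 (abs_nonneg _)
    _ ≤ s := by rw [mul_one]; exact h

/-- the finite maximum plus the small function -/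
noncomputable def mx (t : Finset (Vec n)) (ht : t.Nonempty) (P : Vec n → Torus n → ℝ)
    (b : Torus n → ℝ) (z : Torus n) : ℝ := t.sup' ht (fun j => P j z) + b z

theorem mx_sub {H : Torus n → Vec n → ℝ} {l s : ℝ} {t : Finset (Vec n)}
    {P : Vec n → Torus n → ℝ} {D : Vec n → Vec n → Vec n} (hF : FM H l s t P D)
    (i : Fin n) (x0 : Vec n) (τ : ℝ) (hτ : |τ| ≤ s) :
    IsSubsolution H l (mx t hF.ne P (bump i x0 τ)) := by
  refine ⟨?_, fun x φ hφ hmax => ?_⟩
  · exact (Continuous.finset_sup'_apply hF.ne hF.cont).add (continuous_bump i x0 τ)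
  · obtain ⟨j, hj, hjeq⟩ := Finset.exists_mem_eq_sup' hF.ne (fun j => P j (proj x))
    have hact : ∀ i ∈ t, P i (proj x) ≤ P j (proj x) := by
      intro i hi
      rw [← hjeq]
      exact Finset.le_sup' (fun j => P j (proj x)) hi
    have h1 : HasGradientAt (fun y : Vec n => P j (proj y) + bump i x0 τ (proj y))
        (D j x + (τ * Real.cos (2 * Real.pi * (x i - x0 i))) • EuclideanSpace.single i (1 : ℝ))
        x := by
      have h2 := hasGradientAt_iff_hasFDerivAt.1 (hF.grad j hj x)
      have h3 := hasGradientAt_iff_hasFDerivAt.1 (hasGradientAt_bump i x0 τ x)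
      have h4 := h2.add h3
      rw [← map_add] at h4
      exact hasGradientAt_iff_hasFDerivAt.2 h4
    have h2 : IsLocalMax (fun y : Vec n => P j (proj y) + bump i x0 τ (proj y) - φ y) x := by
      filter_upwards [hmax] with y hy
      have h3 : P j (proj y) ≤ t.sup' hF.ne (fun j => P j (proj y)) :=
        Finset.le_sup' (fun j => P j (proj y)) hj
      simp only [mx] at hy
      rw [hjeq] at hy
      linarith
    rw [gradient_of_isLocalMax h1 hφ h2]
    exact hF.le x j hj hact _ (norm_bump_le i x0 τ s hτ x)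

/-! ### The perturbed Hamiltonian -/

/-- smooth cutoff near the level `c` -/
noncomputable def cut (e c r : ℝ) : ℝ :=
  Real.smoothTransition ((e ^ 2 - (r - c) ^ 2) * (4 / (3 * e ^ 2)))

theorem cut_nonneg (e c r : ℝ) : 0 ≤ cut e c r := Real.smoothTransition.nonneg _

theorem cut_le_one (e c r : ℝ) : cut e c r ≤ 1 := Real.smoothTransition.le_one _

theorem cut_eq_zero {e c r : ℝ} (he : 0 < e) (h : e ≤ |r - c|) : cut e c r = 0 := by
  apply Real.smoothTransition.zero_of_nonpos
  apply mul_nonpos_of_nonpos_of_nonneg _ (by positivity)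
  have h1 : e ^ 2 ≤ (r - c) ^ 2 := by
    rw [← sq_abs (r - c)]
    exact pow_le_pow_left₀ he.le h 2
  linarith

theorem cut_eq_one {e c r : ℝ} (he : 0 < e) (h : |r - c| ≤ e / 2) : cut e c r = 1 := by
  apply Real.smoothTransition.one_of_one_le
  have h1 : (r - c) ^ 2 ≤ (e / 2) ^ 2 := by
    rw [← sq_abs (r - c)]
    exact pow_le_pow_left₀ (abs_nonneg _) h 2
  have h2 : 1 = (3 * e ^ 2 / 4) * (4 / (3 * e ^ 2)) := by field_simp
  rw [h2]
  apply mul_le_mul_of_nonneg_right _ (by positivity)
  nlinarith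

/-- the product of the squared distances to the finitely many gradient fields -/
noncomputable def pr (K : ℝ) (t : Finset (Vec n)) (z : Torus n) (p : Vec n) : ℝ :=
  ∏ y ∈ t, ‖p - K • DgT (z - proj y)‖ ^ 2

theorem pr_nonneg (K : ℝ) (t : Finset (Vec n)) (z : Torus n) (p : Vec n) : 0 ≤ pr K t z p :=
  Finset.prod_nonneg fun _ _ => by positivity

theorem pr_pos (K : ℝ) (t : Finset (Vec n)) (z : Torus n) (p : Vec n)
    (hp : ∀ y ∈ t, p ≠ K • DgT (z - proj y)) : 0 < pr K t z p :=
  Finset.prod_pos fun y hy => pow_pos (norm_pos_iff.2 (sub_ne_zero.2 (hp y hy))) 2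

theorem pr_graph (K : ℝ) (t : Finset (Vec n)) (z : Torus n) {y : Vec n} (hy : y ∈ t) :
    pr K t z (K • DgT (z - proj y)) = 0 :=
  Finset.prod_eq_zero hy (by simp)

theorem continuous_pr (K : ℝ) (t : Finset (Vec n)) :
    Continuous (fun q : Torus n × Vec n => pr K t q.1 q.2) := by
  unfold pr
  refine continuous_finsetProd _ fun y _ => ?_
  have h2 : Continuous (fun q : Torus n × Vec n => DgT (q.1 - proj y)) :=
    continuous_DgT.comp (continuous_fst.sub continuous_const)
  exact ((continuous_snd.sub (h2.const_smul K)).norm).pow 2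

/-- `H₀` replaced by `c - θ ∏ |p - DΓ_y(x)|²` near its critical level set -/
noncomputable def pert (H₀ : Torus n → Vec n → ℝ) (e θ c K : ℝ) (t : Finset (Vec n))
    (z : Torus n) (p : Vec n) : ℝ :=
  H₀ z p + cut e c (H₀ z p) * (c - θ * pr K t z p - H₀ z p)

theorem pert_far (H₀ : Torus n → Vec n → ℝ) {e : ℝ} (he : 0 < e) (θ c K : ℝ)
    (t : Finset (Vec n)) (z : Torus n) (p : Vec n) (h : e ≤ |H₀ z p - c|) :
    pert H₀ e θ c K t z p = H₀ z p := by
  unfold pert
  rw [cut_eq_zero he h]; ring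

theorem pert_close (H₀ : Torus n → Vec n → ℝ) {e θ : ℝ} (he : 0 < e) (hθ : 0 < θ) (c K : ℝ)
    (t : Finset (Vec n)) (z : Torus n) (p : Vec n)
    (h : |H₀ z p - c| < e → θ * pr K t z p ≤ e) : |pert H₀ e θ c K t z p - H₀ z p| ≤ 2 * e := by
  rcases le_or_gt e |H₀ z p - c| with h1 | h1
  · rw [pert_far H₀ he θ c K t z p h1, sub_self, abs_zero]; positivity
  · have h2 : pert H₀ e θ c K t z p - H₀ z p =
        cut e c (H₀ z p) * (c - θ * pr K t z p - H₀ z p) := by unfold pert; ring
    rw [h2, abs_mul, abs_of_nonneg (cut_nonneg _ _ _)]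
    have h3 := h h1
    have h4 : 0 ≤ θ * pr K t z p := mul_nonneg hθ.le (pr_nonneg _ _ _ _)
    have h5 := abs_lt.1 h1
    have h6 : |c - θ * pr K t z p - H₀ z p| ≤ 2 * e := by
      rw [abs_le]; constructor <;> linarith [h5.1, h5.2]
    calc cut e c (H₀ z p) * |c - θ * pr K t z p - H₀ z p| ≤ 1 * (2 * e) :=
          mul_le_mul (cut_le_one _ _ _) h6 (abs_nonneg _) zero_le_one
      _ = 2 * e := one_mul _

theorem pert_le (H₀ : Torus n → Vec n → ℝ) {e θ : ℝ} (he : 0 < e) (hθ : 0 < θ) (c K : ℝ)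
    (t : Finset (Vec n)) (z : Torus n) (p : Vec n) (h : H₀ z p ≤ c + e / 2) :
    pert H₀ e θ c K t z p ≤ c := by
  have h4 : 0 ≤ θ * pr K t z p := mul_nonneg hθ.le (pr_nonneg _ _ _ _)
  unfold pert
  rcases le_or_gt (H₀ z p) c with h1 | h1
  · have h2 := cut_nonneg e c (H₀ z p)
    have h3 := cut_le_one e c (H₀ z p)
    nlinarith [mul_nonneg h2 h4, mul_nonneg (sub_nonneg.2 h3) (sub_nonneg.2 h1)]
  · rw [cut_eq_one he (by rw [abs_of_pos (by linarith)]; linarith)]
    linarith

theorem pert_lt (H₀ : Torus n → Vec n → ℝ) {e θ : ℝ} (he : 0 < e) (hθ : 0 < θ) (c K : ℝ)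
    (t : Finset (Vec n)) (z : Torus n) (p : Vec n) (h : H₀ z p ≤ c + e / 2)
    (hp : ∀ y ∈ t, p ≠ K • DgT (z - proj y)) : pert H₀ e θ c K t z p < c := by
  have h4 : 0 < θ * pr K t z p := mul_pos hθ (pr_pos _ _ _ _ hp)
  unfold pert
  rcases lt_or_ge (H₀ z p) (c - e / 2) with h1 | h1
  · have h2 := cut_nonneg e c (H₀ z p)
    have h3 := cut_le_one e c (H₀ z p)
    rcases eq_or_lt_of_le h3 with h5 | h5
    · rw [h5]; linarith
    · nlinarith [mul_nonneg h2 h4.le, mul_pos (sub_pos.2 h5) (by linarith : 0 < c - H₀ z p)]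
  · rw [cut_eq_one he (by rw [abs_le]; constructor <;> linarith)]
    linarith

theorem pert_graph (H₀ : Torus n → Vec n → ℝ) {e θ : ℝ} (he : 0 < e) (c K : ℝ)
    (t : Finset (Vec n)) (z : Torus n) {y : Vec n} (hy : y ∈ t)
    (h : pert H₀ e θ c K t z (K • DgT (z - proj y)) < c) :
    H₀ z (K • DgT (z - proj y)) ≤ c - e / 2 := by
  by_contra hcon
  push Not at hcon
  unfold pert at h
  rw [pr_graph K t z hy, mul_zero, sub_zero] at h
  set r := H₀ z (K • DgT (z - proj y)) with hr
  rcases le_or_gt r (c + e / 2) with h1 | h1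
  · rw [cut_eq_one he (by rw [abs_le]; constructor <;> linarith)] at h
    linarith
  · have h3 := cut_le_one e c r
    nlinarith [mul_nonneg (sub_nonneg.2 h3) (by linarith : 0 ≤ r - c)]

theorem continuous_cut (e c : ℝ) : Continuous (cut e c) := by
  unfold cut
  exact Real.smoothTransition.continuous.comp (by fun_prop)

theorem contDiff_cut (e c : ℝ) (k : ℕ∞) : ContDiff ℝ k (cut e c) := by
  unfold cut
  exact Real.smoothTransition.contDiff.comp (by fun_prop)

theorem continuous_pert {H₀ : Torus n → Vec n → ℝ}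
    (hH : Continuous (fun q : Torus n × Vec n => H₀ q.1 q.2)) (e θ c K : ℝ)
    (t : Finset (Vec n)) :
    Continuous (fun q : Torus n × Vec n => pert H₀ e θ c K t q.1 q.2) := by
  unfold pert
  exact hH.add (((continuous_cut e c).comp hH).mul
    ((continuous_const.sub (continuous_const.mul (continuous_pr K t))).sub hH))

theorem contDiff_Dg (k : ℕ∞) : ContDiff ℝ k (Dg (n := n)) := by
  rw [contDiff_euclidean]
  intro i
  unfold Dg
  simp only
  fun_prop

theorem contDiff_Dg_sub (y : Vec n) (k : ℕ∞) :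
    ContDiff ℝ k (fun q : Vec n × Vec n => Dg (q.1 - y)) := by
  have h : ContDiff ℝ k (fun q : Vec n × Vec n => q.1 - y) := by fun_prop
  exact ContDiff.comp (g := Dg) (f := fun q : Vec n × Vec n => q.1 - y) (contDiff_Dg k) h

theorem contDiff_pr (K : ℝ) (t : Finset (Vec n)) (k : ℕ∞) :
    ContDiff ℝ k (fun q : Vec n × Vec n => pr K t (proj q.1) q.2) := by
  have h1 : (fun q : Vec n × Vec n => pr K t (proj q.1) q.2) =
      fun q : Vec n × Vec n => ∏ y ∈ t, ‖q.2 - K • Dg (q.1 - y)‖ ^ 2 := by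
    funext q
    unfold pr
    refine Finset.prod_congr rfl fun y _ => ?_
    rw [← proj_sub, DgT_proj]
  rw [h1]
  refine contDiff_prod fun y _ => ?_
  have h2 := contDiff_Dg_sub y k
  have h3 : ContDiff ℝ k (fun q : Vec n × Vec n => K • Dg (q.1 - y)) := h2.const_smul K
  have h4 : ContDiff ℝ k (fun q : Vec n × Vec n => q.2 - K • Dg (q.1 - y)) :=
    ContDiff.sub contDiff_snd h3
  exact h4.norm_sq ℝ

theorem contDiff_pert {H₀ : Torus n → Vec n → ℝ} (e θ c K : ℝ) (t : Finset (Vec n)) (k : ℕ∞)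
    (hH : ContDiff ℝ k (fun q : Vec n × Vec n => H₀ (proj q.1) q.2)) :
    ContDiff ℝ k (fun q : Vec n × Vec n => pert H₀ e θ c K t (proj q.1) q.2) := by
  have h1 := contDiff_pr (n := n) K t k
  have h2 : ContDiff ℝ k (fun q : Vec n × Vec n => cut e c (H₀ (proj q.1) q.2)) :=
    ContDiff.comp (g := cut e c) (f := fun q : Vec n × Vec n => H₀ (proj q.1) q.2)
      (contDiff_cut e c k) hH
  have h3 : ContDiff ℝ k (fun q : Vec n × Vec n => θ * pr K t (proj q.1) q.2) :=
    contDiff_const.mul h1
  have h4 : ContDiff ℝ k (fun q : Vec n × Vec n => c - θ * pr K t (proj q.1) q.2) :=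
    contDiff_const.sub h3
  have h5 := h4.sub hH
  have h6 := h2.mul h5
  exact hH.add h6

/-- **Counterexamples to Q1 are dense.**  In every dimension `n ≥ 1`, for every continuous
superlinear Hamiltonian `H₀` on the torus (convex or not) and every `ε > 0` there is a continuous
superlinear Hamiltonian `H` with `|H - H₀| ≤ ε` everywhere, with `H = H₀` wherever
`|H₀ - c₀(H₀)| ≥ ε`, with the same critical value and at least as smooth as `H₀`, such that no
function `S_x` is a viscosity solution (each is well defined, and fails to be a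
supersolution). -/
theorem result (n : ℕ) (hn : 1 ≤ n) (H₀ : Torus n → Vec n → ℝ)
    (hc : Continuous (fun q : Torus n × Vec n => H₀ q.1 q.2)) (hs : Superlinear H₀)
    (ε : ℝ) (hε : 0 < ε) :
    ∃ H : Torus n → Vec n → ℝ,
      Continuous (fun q : Torus n × Vec n => H q.1 q.2) ∧ Superlinear H ∧
      (∀ k : ℕ∞, ContDiff ℝ k (fun q : Vec n × Vec n => H₀ (proj q.1) q.2) →
        ContDiff ℝ k (fun q : Vec n × Vec n => H (proj q.1) q.2)) ∧
      (∀ x p, |H x p - H₀ x p| ≤ ε) ∧
      (∀ x p, ε ≤ |H₀ x p - critical H₀| → H x p = H₀ x p) ∧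
      (Levels H).Nonempty ∧ BddBelow (Levels H) ∧ critical H = critical H₀ ∧
      (∀ x y, (Increments H x y).Nonempty ∧ BddAbove (Increments H x y)) ∧
      ∀ x : Torus n, ¬ IsSupersolution H (critical H) (S H x) ∧
        ¬ IsSolution H (critical H) (S H x) := by
  set i : Fin n := ⟨0, hn⟩ with hi
  set c := critical H₀ with hcdef
  set e : ℝ := ε / 2 with he
  have hepos : 0 < e := by rw [he]; positivity
  have hne := levels_nonempty' hc
  have hbd := levels_bddBelow' hc
  obtain ⟨Λ, hΛ, hslope⟩ := exists_slope' hs (c + 2 * ε)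
  obtain ⟨K, s, hK, hspos, t, hkey⟩ := key hc hΛ (by positivity : 0 < e / 8)
  -- bound for the product where `H₀` is near `c`
  obtain ⟨θ, hθ, hθ2⟩ : ∃ θ : ℝ, 0 < θ ∧ ∀ z p, |H₀ z p - c| < e → θ * pr K t z p ≤ e := by
    obtain ⟨R, hR⟩ := hs (|c + e| + 1)
    set R' := max R 1 with hR'
    obtain ⟨B, hB⟩ := (isCompact_univ.prod (isCompact_closedBall (0 : Vec n) R')).exists_bound_of_continuousOn
      (continuous_pr K t).continuousOn
    refine ⟨e / (|B| + 1), by positivity, fun z p h => ?_⟩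
    have h1 : ‖p‖ ≤ R' := by
      by_contra hcon
      push Not at hcon
      have h2 := hR z p ((le_max_left _ _).trans hcon.le)
      have h3 : 1 ≤ ‖p‖ := (le_max_right _ _).trans hcon.le
      have h4 : |c + e| + 1 ≤ (|c + e| + 1) * ‖p‖ := by nlinarith [abs_nonneg (c + e)]
      have h5 := le_abs_self (c + e)
      have h6 := (abs_lt.1 h).2
      linarith
    have h2 := hB (z, p) ⟨mem_univ _, by simpa using h1⟩
    have h3 : pr K t z p ≤ |B| + 1 := by
      have h4 := le_abs_self (pr K t z p)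
      have h5 := le_abs_self B
      rw [Real.norm_eq_abs] at h2
      simp only at h2
      linarith
    calc e / (|B| + 1) * pr K t z p ≤ e / (|B| + 1) * (|B| + 1) :=
          mul_le_mul_of_nonneg_left h3 (by positivity)
      _ = e := by field_simp
  set H : Torus n → Vec n → ℝ := pert H₀ e θ c K t with hH
  have hcl : ∀ z p, |H z p - H₀ z p| ≤ ε := fun z p => by
    have h1 := pert_close H₀ hepos hθ c K t z p (hθ2 z p)
    have h2 : 2 * e = ε := by rw [he]; ring
    rw [h2] at h1
    exact h1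
  have hfar : ∀ z p, ε ≤ |H₀ z p - c| → H z p = H₀ z p := fun z p h =>
    pert_far H₀ hepos θ c K t z p (by rw [he]; linarith)
  have hHc : Continuous (fun q : Torus n × Vec n => H q.1 q.2) := continuous_pert hc e θ c K t
  have hHs : Superlinear H := superlinear_of_close hs hcl
  have hmono : ∀ (l : ℝ) (u : Torus n → ℝ), l ≤ c + e / 2 → IsSubsolution H₀ l u →
      IsSubsolution H c u := by
    intro l u hl hu
    refine ⟨hu.1, fun x φ hφ hmax => ?_⟩
    exact pert_le H₀ hepos hθ c K t _ _ ((hu.2 x φ hφ hmax).trans hl)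
  -- a subsolution of `H₀` slightly above the critical level, regularised
  obtain ⟨l₀, ⟨u₀, hu₀⟩, hl₀⟩ := exists_lt_of_csInf_lt hne
    (show sInf (Levels H₀) < c + e / 8 by
      have : sInf (Levels H₀) = c := rfl
      rw [this]; linarith)
  obtain ⟨P, D, hF⟩ := hkey u₀ hu₀.1
    (subsolution_lipschitz i Λ hΛ (fun x p hp => by
      have := hslope x p hp
      have h2 : 2 * e = ε := by rw [he]; ring
      linarith) u₀ hu₀) l₀
    (fun y _ z hz => touch hu₀ hz)
  have hv : ∀ (x0 : Vec n) (τ : ℝ), |τ| ≤ s →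
      IsSubsolution H c (mx t hF.ne P (bump i x0 τ)) := by
    intro x0 τ hτ
    exact hmono _ _ (by linarith) (mx_sub hF i x0 τ hτ)
  -- the critical value
  have hlow : ∀ l ∈ Levels H, c ≤ l := by
    rintro l ⟨u, hu⟩
    by_contra hlt
    push Not at hlt
    have hlip := subsolution_lipschitz i Λ hΛ (fun x p hp => by
      have h1 := hslope x p hp
      have h2 := (abs_le.1 (hcl x p)).1
      linarith) u hu
    obtain ⟨P', D', hF'⟩ := hkey u hu.1 hlip (c - e / 2) (fun y hy z hz =>
      pert_graph H₀ hepos c K t z hy ((touch hu hz).trans_lt hlt))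
    have h1 : c - e / 2 + e / 8 ∈ Levels H₀ :=
      ⟨_, mx_sub hF' i 0 0 (by rw [abs_zero]; exact hspos.le)⟩
    have h2 : c ≤ c - e / 2 + e / 8 := csInf_le hbd h1
    linarith
  have hmem : c ∈ Levels H := ⟨_, hv 0 0 (by rw [abs_zero]; exact hspos.le)⟩
  have hHbd : BddBelow (Levels H) := ⟨c, hlow⟩
  have hcrit : critical H = c := le_antisymm (csInf_le hHbd hmem) (le_csInf ⟨c, hmem⟩ hlow)
  have hinc : ∀ x y, (Increments H x y).Nonempty ∧ BddAbove (Increments H x y) := by
    intro x y
    constructor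
    · refine ⟨_, mx t hF.ne P (bump i 0 0), ?_, rfl⟩
      rw [hcrit]; exact hv 0 0 (by rw [abs_zero]; exact hspos.le)
    · obtain ⟨x0, rfl⟩ := proj_surjective x
      obtain ⟨y0, rfl⟩ := proj_surjective y
      refine ⟨Λ * ‖y0 - x0‖, ?_⟩
      rintro r ⟨u, hu, rfl⟩
      rw [hcrit] at hu
      exact subsolution_lipschitz i Λ hΛ (fun x p hp => by
        have h1 := hslope x p hp
        have h2 := (abs_le.1 (hcl x p)).1
        linarith) u hu x0 y0
  have hSself : ∀ x, S H x x = 0 := by
    intro x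
    unfold S
    have : Increments H x x = {0} := by
      ext r
      constructor
      · rintro ⟨u, _, rfl⟩; simp
      · rintro rfl
        obtain ⟨r, u, hu, hr⟩ := (hinc x x).1
        exact ⟨u, hu, by simp⟩
    rw [this, csSup_singleton]
  have hns : ∀ x : Torus n, ¬ IsSupersolution H (critical H) (S H x) := by
    intro x hS
    obtain ⟨x0, rfl⟩ := proj_surjective x
    rw [hcrit] at hS
    obtain ⟨j, hj, hjeq⟩ := Finset.exists_mem_eq_sup' hF.ne (fun j => P j (proj x0))
    have hact : ∀ i ∈ t, P i (proj x0) ≤ P j (proj x0) := by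
      intro i hi
      rw [← hjeq]
      exact Finset.le_sup' (fun j => P j (proj x0)) hi
    -- choose `τ` such that the slope avoids finitely many values
    obtain ⟨τ, hτ0, hτs, hτ⟩ : ∃ τ : ℝ, 0 < τ ∧ τ ≤ s ∧
        ∀ y ∈ t, D j x0 + τ • EuclideanSpace.single i (1 : ℝ) ≠ K • DgT (proj x0 - proj y) := by
      by_contra hcon
      push Not at hcon
      have hinj : Function.Injective
          (fun τ : ℝ => D j x0 + τ • (EuclideanSpace.single i (1 : ℝ) : Vec n)) := by
        intro a b hab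
        have h1 := add_left_cancel hab
        have h2 := congrArg (fun v : Vec n => v i) h1
        simpa using h2
      have h3 : (Ioc (0 : ℝ) s).Finite := by
        apply Set.Finite.of_finite_image _ hinj.injOn
        apply ((t.finite_toSet).image (fun y => K • DgT (proj x0 - proj y))).subset
        rintro _ ⟨τ, hτ, rfl⟩
        obtain ⟨y, hy, hy2⟩ := hcon τ hτ.1 hτ.2
        exact ⟨y, hy, hy2.symm⟩
      exact (Ioc_infinite hspos) h3
    have habs : |τ| ≤ s := by rw [abs_of_pos hτ0]; exact hτs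
    have hgr : HasGradientAt (fun y : Vec n => P j (proj y) + bump i x0 τ (proj y))
        (D j x0 + τ • EuclideanSpace.single i (1 : ℝ)) x0 := by
      have h2 := hasGradientAt_iff_hasFDerivAt.1 (hF.grad j hj x0)
      have h3 := hasGradientAt_iff_hasFDerivAt.1 (hasGradientAt_bump i x0 τ x0)
      have h4 := h2.add h3
      rw [← map_add] at h4
      have h5 : (τ * Real.cos (2 * Real.pi * (x0 i - x0 i))) = τ := by simp
      rw [h5] at h4
      exact hasGradientAt_iff_hasFDerivAt.2 h4
    have hsm : ContDiffAt ℝ 1 (fun y : Vec n => P j (proj y) + bump i x0 τ (proj y)) x0 :=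
      ((hF.smooth j hj).add (contDiff_bump i x0 τ)).contDiffAt
    have hloc : IsLocalMin (fun y : Vec n => S H (proj x0) (proj y) -
        (P j (proj y) + bump i x0 τ (proj y))) x0 := by
      apply Filter.Eventually.of_forall
      intro y
      have h1 : mx t hF.ne P (bump i x0 τ) (proj y) - mx t hF.ne P (bump i x0 τ) (proj x0) ≤
          S H (proj x0) (proj y) := by
        apply le_csSup (hinc _ _).2
        refine ⟨_, ?_, rfl⟩
        rw [hcrit]; exact hv x0 τ habs
      have h2 : P j (proj y) ≤ t.sup' hF.ne (fun j => P j (proj y)) :=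
        Finset.le_sup' (fun j => P j (proj y)) hj
      simp only [mx] at h1
      rw [hjeq] at h1
      show S H (proj x0) (proj x0) - (P j (proj x0) + bump i x0 τ (proj x0)) ≤
        S H (proj x0) (proj y) - (P j (proj y) + bump i x0 τ (proj y))
      rw [hSself]
      linarith
    have h1 := hS.2 x0 _ hsm hloc
    rw [hgr.gradient] at h1
    have h2 : H₀ (proj x0) (D j x0 + τ • EuclideanSpace.single i (1 : ℝ)) ≤ l₀ + e / 8 := by
      apply hF.le x0 j hj hact
      rw [norm_smul, PiLp.norm_single, norm_one, mul_one, Real.norm_eq_abs]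
      exact habs
    have h3 := pert_lt H₀ hepos hθ c K t (proj x0) _ (by linarith) hτ
    linarith
  exact ⟨H, hHc, hHs, fun k hk => contDiff_pert e θ c K t k hk, hcl, hfar, ⟨c, hmem⟩, hHbd, hcrit,
    hinc,
    fun x => ⟨hns x, fun h => hns x h.2⟩⟩

end Pool.Agent.Results.MP_12cf7c_an.CounterexamplesDense
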