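import Mathlib
import Pool.Agent.Results.MP_12cf7c_an.WholeClass
import Pool.Agent.Results.MP_12cf7c_an.CounterexamplesDense
import Pool.Agent.Y699.HJ.PositiveDense
import Pool.Agent.Y699.HJ.Adm

set_option autoImplicit false

open Set Filter Topology Metric BoundedContinuousFunction

namespace Pool.Agent.Results.MP_12cf7c_an.GenericPositive

open Pool.Agent.Results.MP_12cf7c_an.WholeClass Pool.Agent.Y699.HJ
open Pool.Agent.Results.MP_12cf7c_an.CounterexamplesDense (bump continuous_bump hasGradientAt_bump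
  bump_proj gradient_of_isLocalMax exists_slope' levels_nonempty' levels_bddBelow'
  superlinear_of_close cut cut_nonneg cut_le_one cut_eq_zero cut_eq_one continuous_cut)
open Pool.Agent.Results.MP_12cf7c_an.PositiveDense (norm_adm solution_of_door Hm Hc Hc_close Hc_far
  Hc_near Hc_sub continuous_Hc)

variable {n : ℕ}

/-- The Hamiltonians of the problem: continuous and superlinear. -/
def Ham (H : Torus n → Vec n → ℝ) : Prop :=
  Continuous (fun q : Torus n × Vec n => H q.1 q.2) ∧ Superlinear H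

/-! ### Compactness in the level -/

/-- Subsolutions at levels decreasing to `c`, all touching pairs of which lie in the closed set
`F`, give a subsolution at level `c` with the same property. -/
theorem limit_level {H : Torus n → Vec n → ℝ}
    (hH : Continuous (fun q : Torus n × Vec n => H q.1 q.2)) {Λ c ε : ℝ} (hΛ : 0 < Λ) (hε : 0 < ε)
    (hn : 1 ≤ n) (hslope : ∀ x p, ‖p‖ = Λ → c + ε < H x p) {F : Set (Torus n × Vec n)}
    (hF : IsClosed F)
    (h : ∀ η : ℝ, 0 < η → ∃ u, IsSubsolution H (c + η) u ∧ Touch F u) :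
    ∃ u, IsSubsolution H c u ∧ Touch F u := by
  set A : ℕ → Set (Torus n →ᵇ ℝ) := fun m =>
    Adm Λ ({q : Torus n × Vec n | H q.1 q.2 ≤ c + ε / (m + 1)} ∩ F) with hA
  have hcl : ∀ m : ℕ, IsClosed ({q : Torus n × Vec n | H q.1 q.2 ≤ c + ε / (m + 1)} ∩ F) :=
    fun m => (isClosed_le hH continuous_const).inter hF
  have hle : ∀ m m' : ℕ, m ≤ m' → ε / ((m' : ℝ) + 1) ≤ ε / ((m : ℝ) + 1) := by
    intro m m' hmm
    apply div_le_div_of_nonneg_left hε.le (by positivity)
    have : (m : ℝ) ≤ m' := by exact_mod_cast hmm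
    linarith
  obtain ⟨f, hf⟩ := IsCompact.nonempty_iInter_of_directed_nonempty_isCompact_isClosed A (by
      intro m m'
      refine ⟨max m m', ?_, ?_⟩
      · rintro f hf
        refine ⟨hf.1, fun x φ hφ hm => ⟨?_, (hf.2 x φ hφ hm).2⟩⟩
        have h1 : H (proj x) (gradient φ x) ≤ c + ε / (((max m m' : ℕ) : ℝ) + 1) :=
          (hf.2 x φ hφ hm).1
        have h2 := hle m (max m m') (le_max_left _ _)
        show H (proj x) (gradient φ x) ≤ c + ε / ((m : ℝ) + 1)
        linarith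
      · rintro f hf
        refine ⟨hf.1, fun x φ hφ hm => ⟨?_, (hf.2 x φ hφ hm).2⟩⟩
        have h1 : H (proj x) (gradient φ x) ≤ c + ε / (((max m m' : ℕ) : ℝ) + 1) :=
          (hf.2 x φ hφ hm).1
        have h2 := hle m' (max m m') (le_max_right _ _)
        show H (proj x) (gradient φ x) ≤ c + ε / ((m' : ℝ) + 1)
        linarith)
    (by
      intro m
      obtain ⟨u, hu, hu2⟩ := h (ε / (m + 1)) (by positivity)
      have h1 : ε / ((m : ℝ) + 1) ≤ ε := by
        rw [div_le_iff₀ (by positivity)]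
        have : (0 : ℝ) ≤ m := Nat.cast_nonneg m
        nlinarith
      have hl := subsolution_lipschitz (⟨0, hn⟩ : Fin n) Λ hΛ (fun x p hp => by
        have := hslope x p hp
        linarith) u hu
      obtain ⟨f, hf, -⟩ := norm_adm (Λ := Λ)
        (Z := {q : Torus n × Vec n | H q.1 q.2 ≤ c + ε / (m + 1)} ∩ F) hu.1 hl
        (fun x φ hφ hm => ⟨hu.2 x φ hφ hm, hu2 x φ hφ hm⟩)
      exact ⟨f, hf⟩)
    (fun m => isCompact_Adm hΛ (hcl m)) (fun m => isClosed_Adm Λ (hcl m))
  rw [mem_iInter] at hf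
  refine ⟨f, ⟨f.continuous, fun x φ hφ hm => ?_⟩, fun x φ hφ hm => ((hf 0).2 x φ hφ hm).2⟩
  apply le_of_forall_pos_le_add
  intro δ hδ
  obtain ⟨m, hm'⟩ := exists_nat_gt (ε / δ)
  have h1 : H (proj x) (gradient φ x) ≤ c + ε / ((m : ℝ) + 1) := ((hf m).2 x φ hφ hm).1
  have h2 : ε / ((m : ℝ) + 1) ≤ δ := by
    rw [div_lt_iff₀ hδ] at hm'
    rw [div_le_iff₀ (by positivity)]
    nlinarith
  linarith

/-- the critical level is attained -/
theorem exists_critical (hn : 1 ≤ n) {H : Torus n → Vec n → ℝ} (hH : Ham H) :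
    ∃ u, IsSubsolution H (critical H) u := by
  obtain ⟨Λ, hΛ, hslope⟩ := exists_slope' hH.2 (critical H + 1)
  obtain ⟨u, hu, -⟩ := limit_level hH.1 hΛ one_pos hn hslope isClosed_univ (F := univ) (by
    intro η hη
    obtain ⟨l, ⟨u, hu⟩, hl⟩ := exists_lt_of_csInf_lt (levels_nonempty' hH.1)
      (show sInf (Levels H) < critical H + η by
        have : sInf (Levels H) = critical H := rfl
        rw [this]; linarith)
    exact ⟨u, ⟨hu.1, fun x φ hφ hm => (hu.2 x φ hφ hm).trans hl.le⟩, fun _ _ _ _ => mem_univ _⟩)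
  exact ⟨u, hu⟩

/-- every Hamiltonian is close to one with a door -/
theorem exists_door (hn : 1 ≤ n) (H₀ : Torus n → Vec n → ℝ)
    (hc : Continuous (fun q : Torus n × Vec n => H₀ q.1 q.2)) (hs : Superlinear H₀)
    (ε : ℝ) (hε : 0 < ε) :
    ∃ (H : Torus n → Vec n → ℝ) (Λ : ℝ) (z₁ : Torus n) (p₁ : Vec n), Ham H ∧
      (∀ x p, |H x p - H₀ x p| ≤ ε) ∧
      (∀ x p, ε ≤ |H₀ x p - critical H₀| → H x p = H₀ x p) ∧
      critical H = critical H₀ ∧ 0 < Λ ∧ (∀ x p, ‖p‖ = Λ → critical H + ε < H x p) ∧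
      H z₁ p₁ = critical H ∧
      ∀ O : Set (Torus n × Vec n), IsOpen O → (z₁, p₁) ∈ O → ∀ u, IsSubsolution H (critical H) u →
      ∃ (x : Vec n) (φ : Vec n → ℝ), ContDiffAt ℝ 1 φ x ∧
        IsLocalMax (fun y => u (proj y) - φ y) x ∧ (proj x, gradient φ x) ∈ O := by
  set i : Fin n := ⟨0, hn⟩ with hi
  set c := critical H₀ with hcdef
  set e : ℝ := ε / 2 with he
  have hepos : 0 < e := by rw [he]; positivity
  have hne := levels_nonempty' hc
  have hbd := levels_bddBelow' hc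
  obtain ⟨Λ, hΛ, hslope⟩ := exists_slope' hs (c + 2 * ε)
  set Z₀ : Set (Torus n × Vec n) := {q | H₀ q.1 q.2 ≤ c - e} with hZ₀
  set Z₁ : Set (Torus n × Vec n) := {q | H₀ q.1 q.2 ≤ c + e} with hZ₁
  have hZ₁c : IsClosed Z₁ := isClosed_le hc continuous_const
  have h01 : Z₀ ⊆ Z₁ := fun q hq => by
    have : H₀ q.1 q.2 ≤ c - e := hq
    show H₀ q.1 q.2 ≤ c + e
    linarith
  -- `Z₁` is admissible
  obtain ⟨l₀, ⟨u₀, hu₀⟩, hl₀⟩ := exists_lt_of_csInf_lt hne
    (show sInf (Levels H₀) < c + e by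
      have : sInf (Levels H₀) = c := rfl
      rw [this]; linarith)
  have hZ₁ne : (Adm Λ Z₁).Nonempty := by
    obtain ⟨f, hf, -⟩ := norm_adm (Λ := Λ) (Z := Z₁) hu₀.1
      (subsolution_lipschitz i Λ hΛ (fun x p hp => by
        have := hslope x p hp
        linarith) u₀ hu₀) (fun x φ hφ hm => by
        have := hu₀.2 x φ hφ hm
        show H₀ (proj x) (gradient φ x) ≤ c + e
        linarith)
    exact ⟨f, hf⟩
  -- `Z₀` is not
  have hZ₀e : ¬ (Adm Λ Z₀).Nonempty := by
    rintro ⟨f, hf⟩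
    have h1 : c - e ∈ Levels H₀ := ⟨f, f.continuous, fun x φ hφ hm => hf.2 x φ hφ hm⟩
    have h2 : c ≤ c - e := csInf_le hbd h1
    linarith
  obtain ⟨Z, hZc, h0Z, hZ1, hZne, hmin⟩ := exists_minimal hΛ hZ₁c h01 hZ₁ne
  obtain ⟨f₁, hf₁⟩ := hZne
  have hZset : Z.Nonempty := by
    obtain ⟨z, -, hz⟩ := isCompact_univ.exists_isMaxOn (univ_nonempty (α := Torus n))
      f₁.continuous.continuousOn
    obtain ⟨x, rfl⟩ := proj_surjective z
    exact ⟨_, hf₁.2 x (fun _ => 0) contDiffAt_const (by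
      apply Filter.Eventually.of_forall
      intro y
      have := hz (mem_univ (proj y))
      simpa using this)⟩
  set H : Torus n → Vec n → ℝ := Hc H₀ e c Z with hH
  have h2e : 2 * e = ε := by rw [he]; ring
  have hcl : ∀ z p, |H z p - H₀ z p| ≤ ε := fun z p => by
    have h1 := Hc_close H₀ hepos c Z z p
    rw [h2e] at h1
    exact h1
  have hfar : ∀ z p, ε ≤ |H₀ z p - c| → H z p = H₀ z p := fun z p h =>
    Hc_far H₀ hepos c Z z p (by rw [h2e]; exact h)
  have hHc : Continuous (fun q : Torus n × Vec n => H q.1 q.2) := continuous_Hc hc e c Z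
  have hHs : Superlinear H := superlinear_of_close hs hcl
  have hle : ∀ z p, H z p ≤ c ↔ (z, p) ∈ Z := by
    intro z p
    have hχ0 := cut_nonneg (2 * e) c (H₀ z p)
    have hχ1 := cut_le_one (2 * e) c (H₀ z p)
    have hform := Hc_sub H₀ e c Z z p
    constructor
    · intro h
      by_contra hn
      have h1 : 0 < infDist ((z, p) : Torus n × Vec n) Z :=
        (hZc.notMem_iff_infDist_pos hZset).1 hn
      have h2 : c - e < H₀ z p := by
        by_contra h3
        exact hn (h0Z (not_lt.1 h3))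
      have h3 : c < Hm H₀ e c Z z p := by
        show c < max _ (min _ _)
        exact lt_max_of_lt_right (lt_min (by linarith) (by linarith))
      rcases le_or_gt (H₀ z p) (c + e) with h4 | h4
      · have h5 : H z p = Hm H₀ e c Z z p := Hc_near H₀ hepos c Z z p (by
          rw [abs_le]; constructor <;> linarith)
        linarith
      · have h5 : 0 < Hc H₀ e c Z z p - c := by
          rw [hform]
          rcases eq_or_lt_of_le hχ0 with h6 | h6
          · rw [← h6]; linarith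
          · have h7 := mul_pos h6 (sub_pos.2 h3)
            have h8 := mul_nonneg (sub_nonneg.2 hχ1) (by linarith : 0 ≤ H₀ z p - c)
            linarith
        have h6 : H z p = Hc H₀ e c Z z p := rfl
        linarith
    · intro h
      have h1 : infDist ((z, p) : Torus n × Vec n) Z = 0 := infDist_zero_of_mem h
      have h2 : H₀ z p ≤ c + e := hZ1 h
      have h3 : Hm H₀ e c Z z p ≤ c := by
        show max _ (min _ (c + infDist ((z, p) : Torus n × Vec n) Z)) ≤ c
        rw [h1, add_zero]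
        exact max_le (by linarith) (min_le_right _ _)
      rcases le_or_gt (H₀ z p) c with h4 | h4
      · have h5 : Hc H₀ e c Z z p - c ≤ 0 := by
          rw [hform]
          have h7 := mul_nonneg hχ0 (sub_nonneg.2 h3)
          have h8 := mul_nonneg (sub_nonneg.2 hχ1) (by linarith : 0 ≤ c - H₀ z p)
          linarith
        have h6 : H z p = Hc H₀ e c Z z p := rfl
        linarith
      · have h5 : H z p = Hm H₀ e c Z z p := Hc_near H₀ hepos c Z z p (by
          rw [abs_le]; constructor <;> linarith)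
        linarith
  have hlt : ∀ z p, H z p < c → H₀ z p ≤ c - e := by
    intro z p h
    by_contra hn
    push Not at hn
    have hχ0 := cut_nonneg (2 * e) c (H₀ z p)
    have hχ1 := cut_le_one (2 * e) c (H₀ z p)
    have hform := Hc_sub H₀ e c Z z p
    have h2 : 0 ≤ infDist ((z, p) : Torus n × Vec n) Z := infDist_nonneg
    have h3 : c ≤ Hm H₀ e c Z z p := by
      show c ≤ max _ (min _ _)
      exact le_max_of_le_right (le_min (by linarith) (by linarith))
    rcases le_or_gt (H₀ z p) (c + e) with h4 | h4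
    · have h5 : H z p = Hm H₀ e c Z z p := Hc_near H₀ hepos c Z z p (by
        rw [abs_le]; constructor <;> linarith)
      linarith
    · have h5 : 0 ≤ Hc H₀ e c Z z p - c := by
        rw [hform]
        have h7 := mul_nonneg hχ0 (sub_nonneg.2 h3)
        have h8 := mul_nonneg (sub_nonneg.2 hχ1) (by linarith : 0 ≤ H₀ z p - c)
        linarith
      have h6 : H z p = Hc H₀ e c Z z p := rfl
      linarith
  have hsub₁ : IsSubsolution H c f₁ := ⟨f₁.continuous, fun x φ hφ hm =>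
    (hle _ _).2 (hf₁.2 x φ hφ hm)⟩
  have hlow : ∀ l ∈ Levels H, c ≤ l := by
    rintro l ⟨u, hu⟩
    by_contra hl
    push Not at hl
    have h1 : c - e ∈ Levels H₀ := ⟨u, hu.1, fun x φ hφ hm =>
      hlt _ _ ((hu.2 x φ hφ hm).trans_lt hl)⟩
    have h2 : c ≤ c - e := csInf_le hbd h1
    linarith
  have hmem : c ∈ Levels H := ⟨_, hsub₁⟩
  have hHbd : BddBelow (Levels H) := ⟨c, hlow⟩
  have hcrit : critical H = c := le_antisymm (csInf_le hHbd hmem) (le_csInf ⟨c, hmem⟩ hlow)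
  have hlip : ∀ u, IsSubsolution H c u → ∀ x y : Vec n, u (proj y) - u (proj x) ≤ Λ * ‖y - x‖ :=
    fun u hu => subsolution_lipschitz i Λ hΛ (fun x p hp => by
      have h1 := hslope x p hp
      have h2 := (abs_le.1 (hcl x p)).1
      linarith) u hu
  have hinc : ∀ x y, (Increments H x y).Nonempty ∧ BddAbove (Increments H x y) := by
    intro x y
    constructor
    · exact ⟨_, f₁, by rw [hcrit]; exact hsub₁, rfl⟩
    · obtain ⟨x0, rfl⟩ := proj_surjective x
      obtain ⟨y0, rfl⟩ := proj_surjective y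
      refine ⟨Λ * ‖y0 - x0‖, ?_⟩
      rintro r ⟨u, hu, rfl⟩
      rw [hcrit] at hu
      exact hlip u hu x0 y0
  -- the door
  obtain ⟨⟨z₁, p₁⟩, hd1, hd2⟩ : ∃ q ∈ Z, q ∉ Z₀ := by
    by_contra hcon
    push Not at hcon
    exact hZ₀e ⟨f₁, hf₁.1, fun x φ hφ hm => hcon _ (hf₁.2 x φ hφ hm)⟩
  have hp₁ : c ≤ H z₁ p₁ := by
    by_contra h
    exact hd2 (hlt _ _ (not_le.1 h))
  have hZ₀c : IsClosed Z₀ := isClosed_le hc continuous_const
  have hdoor : ∀ O : Set (Torus n × Vec n), IsOpen O → (z₁, p₁) ∈ O → ∀ u, IsSubsolution H c u →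
      ∃ (x : Vec n) (φ : Vec n → ℝ), ContDiffAt ℝ 1 φ x ∧
        IsLocalMax (fun y => u (proj y) - φ y) x ∧ (proj x, gradient φ x) ∈ O := by
    intro O hO hmO u hu
    by_contra hcon
    push Not at hcon
    set Z' : Set (Torus n × Vec n) := Z ∩ (Oᶜ ∪ Z₀) with hZ'
    have h1 : IsClosed Z' := hZc.inter (hO.isClosed_compl.union hZ₀c)
    have h2 : Z₀ ⊆ Z' := fun q hq => ⟨h0Z hq, Or.inr hq⟩
    have h3 : Z' ⊆ Z := inter_subset_left
    have h4 : (Adm Λ Z').Nonempty := by
      obtain ⟨f, hf, -⟩ := norm_adm (Λ := Λ) (Z := Z') hu.1 (hlip u hu) (fun x φ hφ hm =>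
        ⟨(hle _ _).1 (hu.2 x φ hφ hm), Or.inl (hcon x φ hφ hm)⟩)
      exact ⟨f, hf⟩
    have h5 := hmin Z' h1 h2 h3 h4
    have h6 : (z₁, p₁) ∈ Z' := by rw [h5]; exact hd1
    rcases h6.2 with h7 | h7
    · exact h7 hmO
    · exact hd2 h7
  have hslope' : ∀ x p, ‖p‖ = Λ → c + ε < H x p := by
    intro x p hp
    have h1 := hslope x p hp
    have h2 := (abs_le.1 (hcl x p)).1
    linarith
  refine ⟨H, Λ, z₁, p₁, ⟨hHc, hHs⟩, hcl, hfar, hcrit, hΛ, ?_, ?_, ?_⟩
  · rw [hcrit]; exact hslope'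
  · rw [hcrit]; exact le_antisymm ((hle _ _).2 hd1) hp₁
  · rw [hcrit]; exact hdoor

/-! ### The open dense sets -/

/-- `H` has a door of size `δ`, robustly: for some `(z, p)` with `|H z p - c₀| < δ` and some
`η > 0` every subsolution at level `c₀ + η` has a touching pair in the ball of radius `δ` about
`(z, p)`. -/
def G (δ : ℝ) : Set (Torus n → Vec n → ℝ) :=
  {H | ∃ (q : Torus n × Vec n) (η : ℝ), 0 < η ∧ |H q.1 q.2 - critical H| < δ ∧
    ∀ u, IsSubsolution H (critical H + η) u → ∃ (x : Vec n) (φ : Vec n → ℝ), ContDiffAt ℝ 1 φ x ∧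
      IsLocalMax (fun y => u (proj y) - φ y) x ∧ (proj x, gradient φ x) ∈ ball q δ}

theorem sub_close {H H' : Torus n → Vec n → ℝ} {e l : ℝ} (h : ∀ x p, |H' x p - H x p| ≤ e)
    {u : Torus n → ℝ} (hu : IsSubsolution H l u) : IsSubsolution H' (l + e) u := by
  refine ⟨hu.1, fun x φ hφ hm => ?_⟩
  have h1 := hu.2 x φ hφ hm
  have h2 := (abs_le.1 (h (proj x) (gradient φ x))).2
  linarith

theorem critical_close {H H' : Torus n → Vec n → ℝ} (hH : Ham H) (hH' : Ham H') {e : ℝ}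
    (h : ∀ x p, |H' x p - H x p| ≤ e) : critical H' ≤ critical H + e := by
  apply le_of_forall_pos_le_add
  intro δ hδ
  obtain ⟨l, ⟨u, hu⟩, hl⟩ := exists_lt_of_csInf_lt (levels_nonempty' hH.1)
    (show sInf (Levels H) < critical H + δ by
      have : sInf (Levels H) = critical H := rfl
      rw [this]; linarith)
  have h1 : critical H' ≤ l + e := csInf_le (levels_bddBelow' hH'.1) ⟨u, sub_close h hu⟩
  linarith

theorem G_open {δ : ℝ} {H : Torus n → Vec n → ℝ} (hH : Ham H) (hG : H ∈ G δ) :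
    ∃ ε : ℝ, 0 < ε ∧ ∀ H' : Torus n → Vec n → ℝ, Ham H' → (∀ x p, |H' x p - H x p| ≤ ε) →
      H' ∈ G δ := by
  obtain ⟨q, η, hη, hq, hu⟩ := hG
  set ε : ℝ := min (η / 4) ((δ - |H q.1 q.2 - critical H|) / 4) with hε
  have hε1 : ε ≤ η / 4 := min_le_left _ _
  have hε2 : ε ≤ (δ - |H q.1 q.2 - critical H|) / 4 := min_le_right _ _
  have hpos : 0 < ε := lt_min (by positivity) (by linarith)
  refine ⟨ε, hpos, fun H' hH' hcl => ?_⟩
  have hcl' : ∀ x p, |H x p - H' x p| ≤ ε := fun x p => by rw [abs_sub_comm]; exact hcl x p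
  have h1 := critical_close hH hH' hcl
  have h2 := critical_close hH' hH hcl'
  refine ⟨q, η / 4, by positivity, ?_, fun u hu' => hu u ?_⟩
  · have h3 : H' q.1 q.2 - critical H' = (H' q.1 q.2 - H q.1 q.2) + (H q.1 q.2 - critical H) +
        (critical H - critical H') := by ring
    have h4 : |critical H - critical H'| ≤ ε := by
      rw [abs_le]; constructor <;> linarith
    rw [h3]
    have h5 := abs_add_le ((H' q.1 q.2 - H q.1 q.2) + (H q.1 q.2 - critical H))
      (critical H - critical H')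
    have h6 := abs_add_le (H' q.1 q.2 - H q.1 q.2) (H q.1 q.2 - critical H)
    have h7 := hcl q.1 q.2
    linarith
  · have h3 := sub_close hcl' hu'
    refine ⟨h3.1, fun x φ hφ hm => (h3.2 x φ hφ hm).trans ?_⟩
    linarith

theorem G_dense (hn : 1 ≤ n) {δ : ℝ} (hδ : 0 < δ) (H₀ : Torus n → Vec n → ℝ) (hH₀ : Ham H₀)
    (ε : ℝ) (hε : 0 < ε) : ∃ H ∈ G δ, Ham H ∧ (∀ x p, |H x p - H₀ x p| ≤ ε) ∧
      (∀ x p, ε ≤ |H₀ x p - critical H₀| → H x p = H₀ x p) ∧ critical H = critical H₀ := by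
  obtain ⟨H, Λ, z₁, p₁, hH, hcl, hfar, hcrit, hΛ, hslope, hd, hdoor⟩ :=
    exists_door hn H₀ hH₀.1 hH₀.2 ε hε
  refine ⟨H, ?_, hH, hcl, hfar, hcrit⟩
  by_contra hcon
  have h1 : ∀ η : ℝ, 0 < η → ∃ u, IsSubsolution H (critical H + η) u ∧
      Touch (ball ((z₁, p₁) : Torus n × Vec n) δ)ᶜ u := by
    intro η hη
    by_contra h2
    push Not at h2
    apply hcon
    refine ⟨(z₁, p₁), η, hη, by simp only [hd]; simpa using hδ, fun u hu => ?_⟩
    by_contra h3
    push Not at h3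
    exact h2 u hu fun x φ hφ hm => h3 x φ hφ hm
  obtain ⟨u, hu, hu2⟩ := limit_level hH.1 hΛ hε hn hslope isOpen_ball.isClosed_compl h1
  obtain ⟨x, φ, hφ, hm, hmem⟩ := hdoor _ isOpen_ball (mem_ball_self hδ) u hu
  exact hu2 x φ hφ hm hmem

theorem G_inter (hn : 1 ≤ n) {H : Torus n → Vec n → ℝ} (hH : Ham H)
    (hG : ∀ k : ℕ, H ∈ G (1 / ((k : ℝ) + 1))) : ∃ x : Torus n, IsSolution H (critical H) (S H x) := by
  set c := critical H with hc
  obtain ⟨Λ, hΛ, hslope⟩ := exists_slope' hH.2 c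
  choose q η hη hq hu using hG
  obtain ⟨R, hR⟩ := hH.2 (|c + 1| + 1)
  have hbd : ∀ k, q k ∈ (univ : Set (Torus n)) ×ˢ closedBall (0 : Vec n) (max R 1) := by
    intro k
    refine ⟨mem_univ _, ?_⟩
    rw [mem_closedBall_zero_iff]
    by_contra hcon
    push Not at hcon
    have h2 := hR (q k).1 (q k).2 ((le_max_left _ _).trans hcon.le)
    have h3 : 1 ≤ ‖(q k).2‖ := (le_max_right _ _).trans hcon.le
    have h4 : |c + 1| + 1 ≤ (|c + 1| + 1) * ‖(q k).2‖ := by nlinarith [abs_nonneg (c + 1)]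
    have h5 := le_abs_self (c + 1)
    have h6 := (abs_lt.1 (hq k)).2
    have h7 : 1 / ((k : ℝ) + 1) ≤ 1 := by
      rw [div_le_one (by positivity)]
      have : (0 : ℝ) ≤ k := Nat.cast_nonneg k
      linarith
    linarith
  obtain ⟨q₁, -, ψ, hψ, hlim⟩ := (isCompact_univ.prod (isCompact_closedBall (0 : Vec n)
    (max R 1))).tendsto_subseq hbd
  have hk0 : Tendsto (fun k : ℕ => 1 / (((ψ k : ℕ) : ℝ) + 1)) atTop (𝓝 0) :=
    tendsto_one_div_add_atTop_nhds_zero_nat.comp hψ.tendsto_atTop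
  have hHq : H q₁.1 q₁.2 = c := by
    have h1 : Tendsto (fun k => H (q (ψ k)).1 (q (ψ k)).2) atTop (𝓝 (H q₁.1 q₁.2)) :=
      (hH.1.tendsto q₁).comp hlim
    have h2 : Tendsto (fun k => H (q (ψ k)).1 (q (ψ k)).2) atTop (𝓝 c) := by
      rw [tendsto_iff_dist_tendsto_zero]
      refine squeeze_zero (fun _ => dist_nonneg) (fun k => ?_) hk0
      rw [Real.dist_eq]
      exact (hq (ψ k)).le
    exact tendsto_nhds_unique h1 h2
  refine ⟨q₁.1, solution_of_door hH.1 hΛ rfl (fun u hu' =>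
    subsolution_lipschitz (⟨0, hn⟩ : Fin n) Λ hΛ hslope u hu') (exists_critical hn hH) q₁.1 q₁.2
    hHq.ge ?_⟩
  intro O hO hmO u hu'
  obtain ⟨r, hr, hball⟩ := Metric.isOpen_iff.1 hO q₁ hmO
  have e1 : ∀ᶠ k in atTop, dist (q (ψ k)) q₁ < r / 2 :=
    (tendsto_iff_dist_tendsto_zero.1 hlim).eventually (gt_mem_nhds (by positivity))
  have e2 : ∀ᶠ k : ℕ in atTop, 1 / (((ψ k : ℕ) : ℝ) + 1) < r / 2 :=
    hk0.eventually (gt_mem_nhds (by positivity))
  obtain ⟨k, hk1, hk2⟩ := (e1.and e2).exists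
  obtain ⟨x, φ, hφ, hm, hmem⟩ := hu (ψ k) u ⟨hu'.1, fun x φ hφ hm => by
    have h1 := hu'.2 x φ hφ hm
    have h2 := hη (ψ k)
    linarith⟩
  refine ⟨x, φ, hφ, hm, hball ?_⟩
  rw [mem_ball] at hmem ⊢
  have h1 := dist_triangle ((proj x, gradient φ x) : Torus n × Vec n) (q (ψ k)) q₁
  linarith

/-- **Q1 has a positive answer for generic Hamiltonians.**  In every dimension `n ≥ 1` there are
sets `G k` of Hamiltonians, open and dense for uniform convergence in the space of all continuous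
superlinear Hamiltonians (even with perturbations supported near the critical level and keeping
the critical value), such that for every continuous superlinear `H` in all `G k` there is a point
`x` for which `S_x` is a viscosity solution on the whole torus. -/
theorem result (n : ℕ) (hn : 1 ≤ n) : ∃ G : ℕ → Set (Torus n → Vec n → ℝ),
    (∀ k, ∀ H ∈ G k, Ham H → ∃ ε : ℝ, 0 < ε ∧ ∀ H' : Torus n → Vec n → ℝ, Ham H' →
      (∀ x p, |H' x p - H x p| ≤ ε) → H' ∈ G k) ∧
    (∀ k, ∀ H₀ : Torus n → Vec n → ℝ, Ham H₀ → ∀ ε : ℝ, 0 < ε → ∃ H ∈ G k, Ham H ∧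
      (∀ x p, |H x p - H₀ x p| ≤ ε) ∧
      (∀ x p, ε ≤ |H₀ x p - critical H₀| → H x p = H₀ x p) ∧ critical H = critical H₀) ∧
    ∀ H : Torus n → Vec n → ℝ, Ham H → (∀ k, H ∈ G k) →
      (Levels H).Nonempty ∧ BddBelow (Levels H) ∧
      (∀ x y, (Increments H x y).Nonempty ∧ BddAbove (Increments H x y)) ∧
      ∃ x : Torus n, IsSolution H (critical H) (S H x) := by
  refine ⟨fun k => G (1 / ((k : ℝ) + 1)), fun k H hG hH => G_open hH hG,
    fun k H₀ hH₀ ε hε => G_dense hn (by positivity) H₀ hH₀ ε hε, fun H hH hG =>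
    ⟨levels_nonempty' hH.1, levels_bddBelow' hH.1, fun x y => ⟨?_, ?_⟩, G_inter hn hH hG⟩⟩
  · obtain ⟨u, hu⟩ := exists_critical hn hH
    exact ⟨_, u, hu, rfl⟩
  · obtain ⟨Λ, hΛ, hslope⟩ := exists_slope' hH.2 (critical H)
    obtain ⟨x0, rfl⟩ := proj_surjective x
    obtain ⟨y0, rfl⟩ := proj_surjective y
    refine ⟨Λ * ‖y0 - x0‖, ?_⟩
    rintro r ⟨u, hu, rfl⟩
    exact subsolution_lipschitz (⟨0, hn⟩ : Fin n) Λ hΛ hslope u hu x0 y0

end Pool.Agent.Results.MP_12cf7c_an.GenericPositive
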