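import Mathlib
import Pool.Agent.Results.MP_12cf7c_an.WholeClass
import Pool.Agent.Results.MP_12cf7c_an.CounterexamplesDense
import Pool.Agent.Y699.HJ.PositiveDense
import Pool.Agent.Results.MP_12cf7c_an.GenericPositive
import Pool.Agent.Y699.HJ.Adm
import Pool.Agent.Y699.HJ.Fiber

set_option autoImplicit false

open Set Filter Topology Metric

namespace Pool.Agent.Results.MP_12cf7c_an.ManeGeneric

open Pool.Agent.Results.MP_12cf7c_an.WholeClass Pool.Agent.Y699.HJ
open Pool.Agent.Results.MP_12cf7c_an.CounterexamplesDense (gradient_of_isLocalMax exists_slope'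
  levels_nonempty' levels_bddBelow' superlinear_of_close)
open Pool.Agent.Results.MP_12cf7c_an.PositiveDense (norm_adm)
open Pool.Agent.Results.MP_12cf7c_an.GenericPositive (Ham exists_critical sub_close critical_close)
open Pool.Agent.Y699.HJ.Mane (solution_of_fiber)

variable {n : ℕ}

/-- The Hamiltonian `F(x, p) + V(x)`. -/
def FV (F : Torus n → Vec n → ℝ) (V : C(Torus n, ℝ)) : Torus n → Vec n → ℝ :=
  fun z p => F z p + V z

theorem ham_FV {F : Torus n → Vec n → ℝ} (hF : Ham F) (V : C(Torus n, ℝ)) : Ham (FV F V) := by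
  refine ⟨hF.1.add (V.continuous.comp continuous_fst), superlinear_of_close (e := ‖V‖) hF.2 ?_⟩
  intro z p
  have h1 : FV F V z p - F z p = V z := by simp [FV]
  rw [h1]
  have := V.norm_coe_le_norm z
  rwa [Real.norm_eq_abs] at this

theorem FV_close {F : Torus n → Vec n → ℝ} {V V' : C(Torus n, ℝ)} {e : ℝ} (h : dist V' V ≤ e) :
    ∀ x p, |FV F V' x p - FV F V x p| ≤ e := by
  intro x p
  have h1 := (ContinuousMap.dist_apply_le_dist (f := V') (g := V) x).trans h
  rw [Real.dist_eq] at h1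
  have h2 : FV F V' x p - FV F V x p = V' x - V x := by simp [FV]
  rw [h2]; exact h1

/-- potentials for which the critical subsolutions cannot be strict on some ball of radius `δ` -/
def GV (F : Torus n → Vec n → ℝ) (δ : ℝ) : Set C(Torus n, ℝ) :=
  {V | ∃ (z : Torus n) (η δ' : ℝ), 0 < η ∧ δ' < δ ∧
    ∀ u, IsSubsolution (FV F V) (critical (FV F V) + η) u → ∃ (x : Vec n) (φ : Vec n → ℝ),
      ContDiffAt ℝ 1 φ x ∧ IsLocalMax (fun y => u (proj y) - φ y) x ∧ proj x ∈ ball z δ ∧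
      critical (FV F V) - δ' < FV F V (proj x) (gradient φ x)}

theorem isOpen_GV {F : Torus n → Vec n → ℝ} (hF : Ham F) (δ : ℝ) : IsOpen (GV F δ) := by
  rw [Metric.isOpen_iff]
  rintro V ⟨z, η, δ', hη, hδ', hu⟩
  set ε : ℝ := min (η / 4) ((δ - δ') / 8) with hε
  have hε1 : ε ≤ η / 4 := min_le_left _ _
  have hε2 : ε ≤ (δ - δ') / 8 := min_le_right _ _
  have hpos : 0 < ε := lt_min (by positivity) (by linarith)
  refine ⟨ε, hpos, fun V' hV' => ?_⟩
  have hd : dist V' V ≤ ε := le_of_lt hV'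
  have hcl := FV_close (F := F) hd
  have hcl' : ∀ x p, |FV F V x p - FV F V' x p| ≤ ε := fun x p => by
    rw [abs_sub_comm]; exact hcl x p
  have h1 := critical_close (ham_FV hF V) (ham_FV hF V') hcl
  have h2 := critical_close (ham_FV hF V') (ham_FV hF V) hcl'
  refine ⟨z, η / 4, δ' + 4 * ε, by positivity, by linarith, fun u hu' => ?_⟩
  have h3 := sub_close hcl' hu'
  obtain ⟨x, φ, hφ, hm, hx, hval⟩ := hu u ⟨h3.1, fun x φ hφ hm => (h3.2 x φ hφ hm).trans (by
    linarith)⟩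
  refine ⟨x, φ, hφ, hm, hx, ?_⟩
  have h4 := (abs_le.1 (hcl (proj x) (gradient φ x))).1
  linarith

/-- allowed touching pairs -/
def ZZ (H : Torus n → Vec n → ℝ) (c a δ : ℝ) (σ : Finset (Torus n)) (b : ℝ) :
    Set (Torus n × Vec n) :=
  ((⋃ z ∈ σ, {q : Torus n × Vec n | dist q.1 z ≤ δ / 4 + b}) ∩ {q | H q.1 q.2 ≤ c + a + b}) ∪
    {q | H q.1 q.2 ≤ c - a + b}

theorem mem_ZZ {H : Torus n → Vec n → ℝ} {c a δ : ℝ} {σ : Finset (Torus n)} {b : ℝ}
    {z : Torus n} {p : Vec n} : (z, p) ∈ ZZ H c a δ σ b ↔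
      ((∃ z' ∈ σ, dist z z' ≤ δ / 4 + b) ∧ H z p ≤ c + a + b) ∨ H z p ≤ c - a + b := by
  simp [ZZ]

theorem isClosed_ZZ {H : Torus n → Vec n → ℝ}
    (hH : Continuous (fun q : Torus n × Vec n => H q.1 q.2)) (c a δ : ℝ) (σ : Finset (Torus n))
    (b : ℝ) : IsClosed (ZZ H c a δ σ b) := by
  unfold ZZ
  refine IsClosed.union (IsClosed.inter ?_ (isClosed_le hH continuous_const))
    (isClosed_le hH continuous_const)
  exact σ.finite_toSet.isClosed_biUnion fun z _ =>
    isClosed_le (continuous_fst.dist continuous_const) continuous_const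

theorem ZZ_mono {H : Torus n → Vec n → ℝ} {c a δ : ℝ} {σ : Finset (Torus n)} {b b' : ℝ}
    (h : b ≤ b') : ZZ H c a δ σ b ⊆ ZZ H c a δ σ b' := by
  rintro ⟨z, p⟩ hq
  rw [mem_ZZ] at hq ⊢
  rcases hq with ⟨⟨z', hz', hd⟩, h1⟩ | h1
  · exact Or.inl ⟨⟨z', hz', by linarith⟩, by linarith⟩
  · exact Or.inr (by linarith)

theorem Adm_mono {Λ : ℝ} {A B : Set (Torus n × Vec n)} (h : A ⊆ B) : Adm Λ A ⊆ Adm Λ B :=
  fun _ hf => ⟨hf.1, fun x φ hφ hm => h (hf.2 x φ hφ hm)⟩

theorem relax {H : Torus n → Vec n → ℝ}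
    (hH : Continuous (fun q : Torus n × Vec n => H q.1 q.2)) {Λ : ℝ} (hΛ : 0 < Λ) {c a δ : ℝ}
    {σ : Finset (Torus n)} (hne : ¬ (Adm Λ (ZZ H c a δ σ 0)).Nonempty) :
    ∃ m : ℕ, ¬ (Adm Λ (ZZ H c a δ σ (1 / ((m : ℝ) + 1)))).Nonempty := by
  by_contra hcon
  push Not at hcon
  apply hne
  have hle : ∀ m m' : ℕ, m ≤ m' → 1 / ((m' : ℝ) + 1) ≤ 1 / ((m : ℝ) + 1) := by
    intro m m' hmm
    apply div_le_div_of_nonneg_left zero_le_one (by positivity)
    have : (m : ℝ) ≤ m' := by exact_mod_cast hmm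
    linarith
  obtain ⟨f, hf⟩ := IsCompact.nonempty_iInter_of_directed_nonempty_isCompact_isClosed
    (fun m : ℕ => Adm Λ (ZZ H c a δ σ (1 / ((m : ℝ) + 1)))) (by
      intro m m'
      exact ⟨max m m', Adm_mono (ZZ_mono (hle _ _ (le_max_left _ _))),
        Adm_mono (ZZ_mono (hle _ _ (le_max_right _ _)))⟩)
    (fun m => hcon m) (fun m => isCompact_Adm hΛ (isClosed_ZZ hH _ _ _ _ _))
    (fun m => isClosed_Adm Λ (isClosed_ZZ hH _ _ _ _ _))
  rw [mem_iInter] at hf
  refine ⟨f, (hf 0).1, fun x φ hφ hm => ?_⟩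
  have hall : ∀ m : ℕ, (proj x, gradient φ x) ∈ ZZ H c a δ σ (1 / ((m : ℝ) + 1)) :=
    fun m => (hf m).2 x φ hφ hm
  have h0 : Tendsto (fun m : ℕ => 1 / ((m : ℝ) + 1)) atTop (𝓝 0) :=
    tendsto_one_div_add_atTop_nhds_zero_nat
  by_contra hnot
  rw [mem_ZZ] at hnot
  push Not at hnot
  obtain ⟨hn1, hn2⟩ := hnot
  simp only [add_zero] at hn1 hn2
  have e1 : ∀ᶠ m : ℕ in atTop, 1 / ((m : ℝ) + 1) < H (proj x) (gradient φ x) - (c - a) :=
    h0.eventually (gt_mem_nhds (by linarith))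
  by_cases hex : ∃ z' ∈ σ, dist (proj x) z' ≤ δ / 4
  · have h1 := hn1 hex
    have e2 : ∀ᶠ m : ℕ in atTop, 1 / ((m : ℝ) + 1) < H (proj x) (gradient φ x) - (c + a) :=
      h0.eventually (gt_mem_nhds (by linarith))
    obtain ⟨m, hm1, hm2⟩ := (e1.and e2).exists
    rcases mem_ZZ.1 (hall m) with ⟨-, h2⟩ | h2 <;> linarith
  · push Not at hex
    have e2 : ∀ᶠ m : ℕ in atTop, ∀ z' ∈ σ, 1 / ((m : ℝ) + 1) < dist (proj x) z' - δ / 4 := by
      rw [Filter.eventually_all_finset]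
      intro z' hz'
      exact h0.eventually (gt_mem_nhds (by have := hex z' hz'; linarith))
    obtain ⟨m, hm1, hm2⟩ := (e1.and e2).exists
    rcases mem_ZZ.1 (hall m) with ⟨⟨z', hz', h2⟩, -⟩ | h2
    · have := hm2 z' hz'
      linarith
    · linarith

theorem dense_GV (hn : 1 ≤ n) {F : Torus n → Vec n → ℝ} (hF : Ham F) {δ : ℝ} (hδ : 0 < δ) :
    Dense (GV F δ) := by
  rw [Metric.dense_iff]
  intro V₀ r hr
  set H := FV F V₀ with hHdef
  have hH : Ham H := ham_FV hF V₀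
  set c := critical H with hc
  set a : ℝ := min (r / 4) (δ / 8) with ha
  have hapos : 0 < a := by positivity
  have ha1 : a ≤ r / 4 := min_le_left _ _
  have ha2 : a ≤ δ / 8 := min_le_right _ _
  obtain ⟨Λ, hΛ, hslope⟩ := exists_slope' hH.2 (c + 2 * a + 1)
  -- finite cover
  obtain ⟨T, -, hTf, hT⟩ := finite_cover_balls_of_compact (isCompact_univ (X := Torus n))
    (by positivity : 0 < δ / 4)
  have hPT : (Adm Λ (ZZ H c a δ hTf.toFinset 0)).Nonempty := by
    obtain ⟨l, ⟨u, hu⟩, hl⟩ := exists_lt_of_csInf_lt (levels_nonempty' hH.1)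
      (show sInf (Levels H) < c + a by
        have : sInf (Levels H) = c := rfl
        rw [this]; linarith)
    obtain ⟨f, hf, -⟩ := norm_adm (Λ := Λ) (Z := ZZ H c a δ hTf.toFinset 0) hu.1
      (subsolution_lipschitz (⟨0, hn⟩ : Fin n) Λ hΛ (fun x p hp => by
        have := hslope x p hp
        linarith) u hu) (fun x φ hφ hm => by
        rw [mem_ZZ]
        left
        have h1 := hT (mem_univ (proj x))
        rw [mem_iUnion₂] at h1
        obtain ⟨z', hz', hd⟩ := h1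
        refine ⟨⟨z', hTf.mem_toFinset.2 hz', ?_⟩, ?_⟩
        · have h2 : dist (proj x) z' < δ / 4 := hd
          linarith
        · have := hu.2 x φ hφ hm
          linarith)
    exact ⟨f, hf⟩
  obtain ⟨σ, hσ, hσmin⟩ := (measure (Finset.card : Finset (Torus n) → ℕ)).wf.has_min
    {σ | (Adm Λ (ZZ H c a δ σ 0)).Nonempty} ⟨_, hPT⟩
  have hσne : σ.Nonempty := by
    by_contra hcon
    rw [Finset.not_nonempty_iff_eq_empty] at hcon
    rw [hcon] at hσ
    obtain ⟨f, hf⟩ := hσ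
    have h1 : c - a ∈ Levels H := ⟨f, f.continuous, fun x φ hφ hm => by
      rcases mem_ZZ.1 (hf.2 x φ hφ hm) with ⟨⟨z', hz', -⟩, -⟩ | h2
      · exact absurd hz' (Finset.notMem_empty _)
      · linarith⟩
    have h2 : c ≤ c - a := csInf_le (levels_bddBelow' hH.1) h1
    linarith
  obtain ⟨z₀, hz₀⟩ := hσne
  have hσ' : ¬ (Adm Λ (ZZ H c a δ (σ.erase z₀) 0)).Nonempty := fun h =>
    hσmin _ h (Finset.card_erase_lt_of_mem hz₀)
  obtain ⟨m, hm⟩ := relax hH.1 hΛ hσ'
  set ρ : ℝ := min (1 / ((m : ℝ) + 1)) (δ / 4) with hρ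
  have hρpos : 0 < ρ := by positivity
  have hρ1 : ρ ≤ 1 / ((m : ℝ) + 1) := min_le_left _ _
  have hρ2 : ρ ≤ δ / 4 := min_le_right _ _
  have hρ3 : ρ ≤ 1 := hρ1.trans (by
    rw [div_le_one (by positivity)]
    have : (0 : ℝ) ≤ m := Nat.cast_nonneg m
    linarith)
  have hρe : ¬ (Adm Λ (ZZ H c a δ (σ.erase z₀) ρ)).Nonempty := fun ⟨f, hf⟩ =>
    hm ⟨f, Adm_mono (ZZ_mono hρ1) hf⟩
  -- the potential
  set τ : ℝ → ℝ := fun t => max 0 (min 1 ((t - δ / 4) / ρ)) with hτ
  have hτ0 : ∀ t, 0 ≤ τ t := fun t => le_max_left _ _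
  have hτ1 : ∀ t, τ t ≤ 1 := fun t => max_le zero_le_one (min_le_left _ _)
  have hτa : ∀ t, t ≤ δ / 4 → τ t = 0 := by
    intro t ht
    apply max_eq_left
    refine (min_le_right _ _).trans ?_
    exact div_nonpos_of_nonpos_of_nonneg (by linarith) hρpos.le
  have hτb : ∀ t, δ / 4 + ρ ≤ t → τ t = 1 := by
    intro t ht
    have h1 : 1 ≤ (t - δ / 4) / ρ := by rw [le_div_iff₀ hρpos]; linarith
    simp only [hτ]
    rw [min_eq_left h1]
    exact max_eq_right zero_le_one
  have hτc : Continuous τ := by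
    simp only [hτ]; fun_prop
  set W : C(Torus n, ℝ) := ⟨fun z => -a + 2 * a * ∏ z' ∈ σ, τ (dist z z'), by
    refine continuous_const.add (continuous_const.mul (continuous_finsetProd _ fun z' _ => ?_))
    exact hτc.comp (continuous_id.dist continuous_const)⟩ with hW
  have hWv : ∀ z, W z = -a + 2 * a * ∏ z' ∈ σ, τ (dist z z') := fun z => rfl
  have hprod0 : ∀ z, 0 ≤ ∏ z' ∈ σ, τ (dist z z') := fun z => Finset.prod_nonneg fun _ _ => hτ0 _
  have hprod1 : ∀ z, ∏ z' ∈ σ, τ (dist z z') ≤ 1 := fun z =>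
    Finset.prod_le_one (fun _ _ => hτ0 _) (fun _ _ => hτ1 _)
  have hWl : ∀ z, -a ≤ W z := fun z => by
    rw [hWv]
    have := mul_nonneg (by linarith : 0 ≤ 2 * a) (hprod0 z)
    linarith
  have hWu : ∀ z, W z ≤ a := fun z => by
    rw [hWv]
    have := mul_le_mul_of_nonneg_left (hprod1 z) (by linarith : 0 ≤ 2 * a)
    linarith
  have hFVe : ∀ z p, FV F (V₀ + W) z p = H z p + W z := by
    intro z p
    simp only [hHdef, FV, ContinuousMap.add_apply]
    ring
  set cV := critical (FV F (V₀ + W)) with hcV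
  have hcVc : cV ≤ c := by
    obtain ⟨f, hf⟩ := hσ
    apply csInf_le (levels_bddBelow' (ham_FV hF (V₀ + W)).1)
    refine ⟨f, f.continuous, fun x φ hφ hm' => ?_⟩
    rw [hFVe]
    rcases mem_ZZ.1 (hf.2 x φ hφ hm') with ⟨⟨z', hz', hd⟩, h2⟩ | h2
    · have h3 : W (proj x) = -a := by
        rw [hWv, Finset.prod_eq_zero hz' (hτa _ (by linarith))]; ring
      rw [h3]; linarith
    · have := hWu (proj x)
      linarith
  refine ⟨V₀ + W, ?_, ?_⟩
  · rw [mem_ball]
    refine lt_of_le_of_lt ((ContinuousMap.dist_le hapos.le).2 fun z => ?_) (by linarith : a < r)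
    rw [Real.dist_eq, ContinuousMap.add_apply, add_sub_cancel_left, abs_le]
    exact ⟨hWl z, hWu z⟩
  · refine ⟨z₀, ρ, 4 * a, hρpos, by linarith, fun u hu => ?_⟩
    by_contra hcon
    push Not at hcon
    apply hρe
    obtain ⟨f, hf, -⟩ := norm_adm (Λ := Λ) (Z := ZZ H c a δ (σ.erase z₀) ρ) hu.1
      (subsolution_lipschitz (⟨0, hn⟩ : Fin n) Λ hΛ (fun x p hp => by
        have h1 := hslope x p hp
        have h2 := hWl x
        rw [hFVe]
        linarith) u hu) (fun x φ hφ hm' => by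
        have h1 := hu.2 x φ hφ hm'
        rw [hFVe] at h1
        rw [mem_ZZ]
        by_cases hex : ∃ z' ∈ σ.erase z₀, dist (proj x) z' ≤ δ / 4 + ρ
        · left
          have := hWl (proj x)
          exact ⟨hex, by linarith⟩
        · right
          by_cases hb : proj x ∈ ball z₀ δ
          · have h2 := hcon x φ hφ hm' hb
            rw [hFVe] at h2
            have := hWl (proj x)
            linarith
          · push Not at hex
            have hbig : ∀ z' ∈ σ, δ / 4 + ρ ≤ dist (proj x) z' := by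
              intro z' hz'
              by_cases he : z' = z₀
              · rw [he]
                have : δ ≤ dist (proj x) z₀ := not_lt.1 hb
                linarith
              · exact (hex z' (Finset.mem_erase.2 ⟨he, hz'⟩)).le
            have h3 : W (proj x) = a := by
              rw [hWv, Finset.prod_eq_one fun z' hz' => hτb _ (hbig z' hz')]; ring
            rw [h3] at h1
            linarith)
    exact ⟨f, hf⟩

theorem inter_GV (hn : 1 ≤ n) {F : Torus n → Vec n → ℝ} (hF : Ham F) {V : C(Torus n, ℝ)}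
    (hG : ∀ k : ℕ, V ∈ GV F (1 / ((k : ℝ) + 1))) :
    ∃ x : Torus n, IsSolution (FV F V) (critical (FV F V)) (S (FV F V) x) := by
  have hH := ham_FV hF V
  set H := FV F V with hHdef
  set c := critical H with hc
  obtain ⟨Λ, hΛ, hslope⟩ := exists_slope' hH.2 c
  choose z η δ' hη hδ' hu using hG
  obtain ⟨z₁, -, ψ, hψ, hlim⟩ := (isCompact_univ (X := Torus n)).tendsto_subseq
    (fun k => mem_univ (z k))
  have hk0 : Tendsto (fun k : ℕ => 1 / (((ψ k : ℕ) : ℝ) + 1)) atTop (𝓝 0) :=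
    tendsto_one_div_add_atTop_nhds_zero_nat.comp hψ.tendsto_atTop
  refine ⟨z₁, solution_of_fiber hH.1 hΛ rfl (fun u hu' =>
    subsolution_lipschitz (⟨0, hn⟩ : Fin n) Λ hΛ hslope u hu') (exists_critical hn hH) z₁ ?_⟩
  intro O e hO hmO he u hu'
  obtain ⟨r, hr, hball⟩ := Metric.isOpen_iff.1 hO z₁ hmO
  have e1 : ∀ᶠ k in atTop, dist (z (ψ k)) z₁ < r / 2 :=
    (tendsto_iff_dist_tendsto_zero.1 hlim).eventually (gt_mem_nhds (by positivity))
  have e2 : ∀ᶠ k : ℕ in atTop, 1 / (((ψ k : ℕ) : ℝ) + 1) < r / 2 :=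
    hk0.eventually (gt_mem_nhds (by positivity))
  have e3 : ∀ᶠ k : ℕ in atTop, 1 / (((ψ k : ℕ) : ℝ) + 1) < e :=
    hk0.eventually (gt_mem_nhds he)
  obtain ⟨k, ⟨hk1, hk2⟩, hk3⟩ := ((e1.and e2).and e3).exists
  obtain ⟨x, φ, hφ, hm, hmem, hval⟩ := hu (ψ k) u ⟨hu'.1, fun x φ hφ hm => by
    have h1 := hu'.2 x φ hφ hm
    have h2 := hη (ψ k)
    linarith⟩
  refine ⟨x, φ, hφ, hm, hball ?_, ?_⟩
  · rw [mem_ball] at hmem ⊢
    have h1 := dist_triangle (proj x) (z (ψ k)) z₁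
    linarith
  · have := hδ' (ψ k)
    linarith

/-- **Q1 has a positive answer for `F(x, p) + V(x)` with a generic potential `V`** (generic in the
sense of Mañé), for every continuous superlinear `F`, convex or not, in every dimension `n ≥ 1`:
the potentials `V` for which some `S_x` is a viscosity solution on the whole torus form a residual
subset of `C(Tⁿ)` (and all `S_x` are well defined for every `V`). -/
theorem result (n : ℕ) (hn : 1 ≤ n) (F : Torus n → Vec n → ℝ)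
    (hc : Continuous (fun q : Torus n × Vec n => F q.1 q.2)) (hs : Superlinear F) :
    (∀ V : C(Torus n, ℝ), (Levels (FV F V)).Nonempty ∧ BddBelow (Levels (FV F V)) ∧
      ∀ x y, (Increments (FV F V) x y).Nonempty ∧ BddAbove (Increments (FV F V) x y)) ∧
    {V : C(Torus n, ℝ) | ∃ x : Torus n,
      IsSolution (FV F V) (critical (FV F V)) (S (FV F V) x)} ∈ residual C(Torus n, ℝ) := by
  have hF : Ham F := ⟨hc, hs⟩
  constructor
  · intro V
    have hH := ham_FV hF V
    refine ⟨levels_nonempty' hH.1, levels_bddBelow' hH.1, fun x y => ⟨?_, ?_⟩⟩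
    · obtain ⟨u, hu⟩ := exists_critical hn hH
      exact ⟨_, u, hu, rfl⟩
    · obtain ⟨Λ, hΛ, hslope⟩ := exists_slope' hH.2 (critical (FV F V))
      obtain ⟨x0, rfl⟩ := proj_surjective x
      obtain ⟨y0, rfl⟩ := proj_surjective y
      refine ⟨Λ * ‖y0 - x0‖, ?_⟩
      rintro r ⟨u, hu, rfl⟩
      exact subsolution_lipschitz (⟨0, hn⟩ : Fin n) Λ hΛ hslope u hu x0 y0
  · have h1 : ∀ k : ℕ, GV F (1 / ((k : ℝ) + 1)) ∈ residual C(Torus n, ℝ) := fun k =>
      residual_of_dense_open (isOpen_GV hF _) (dense_GV hn hF (by positivity))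
    refine Filter.mem_of_superset (countable_iInter_mem.2 h1) fun V hV => ?_
    rw [mem_iInter] at hV
    exact inter_GV hn hF hV

end Pool.Agent.Results.MP_12cf7c_an.ManeGeneric
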